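import Pool.Agent.P.MP_c4850b_lc.Definable

/-!
If the powers of an element `x₀` of infinite order, with their multiplication, are definable with
two parameters, the elementary theory is undecidable (parameters are removed by
Sigma-1 completeness).
-/

namespace Pool.Agent.P.MP_c4850b_lc

/-- an interpretation of arithmetic in the powers of `x₀`, with parameters `x₀, y₀` -/
structure Ctx (F : Type) [Group F] : Type where
  N : F → F → F → Prop
  M : F → F → F → F → F → Prop
  dN : Df fun v : Fin 3 → F => N (v 0) (v 1) (v 2)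
  dM : Df fun v : Fin 5 → F => M (v 0) (v 1) (v 2) (v 3) (v 4)
  x₀ : F
  y₀ : F
  inj : Function.Injective fun k : ℕ => x₀ ^ k
  hN : ∀ z, N x₀ y₀ z ↔ ∃ k : ℕ, z = x₀ ^ k
  hM : ∀ a b c : ℕ, M x₀ y₀ (x₀ ^ a) (x₀ ^ b) (x₀ ^ c) ↔ a * b = c

variable {F : Type} [Group F] {α β : Type} (c : Ctx F)

namespace Ctx

lemma dfN {f g h : (α → F) → F} (hf : TD f) (hg : TD g) (hh : TD h) :
    Df fun v => c.N (f v) (g v) (h v) :=
  c.dN.subst ![f, g, h] (fun i => by fin_cases i <;> assumption)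

lemma dfM {f g h k l : (α → F) → F} (hf : TD f) (hg : TD g) (hh : TD h) (hk : TD k) (hl : TD l) :
    Df fun v => c.M (f v) (g v) (h v) (k v) (l v) :=
  c.dM.subst ![f, g, h, k, l] (fun i => by fin_cases i <;> assumption)

def Lt (x y z w : F) : Prop := c.N x y z ∧ c.N x y (z⁻¹ * w * x⁻¹)

lemma dfLt {f g h k : (α → F) → F} (hf : TD f) (hg : TD g) (hh : TD h) (hk : TD k) :
    Df fun v => c.Lt (f v) (g v) (h v) (k v) :=
  (c.dfN hf hg hh).and (c.dfN hf hg ((hh.inv.mul hk).mul hf.inv))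

/-- finitely many closure properties of the parameters -/
def Θ (x y : F) : Prop :=
  c.N x y 1 ∧ (∀ z, c.N x y z → c.N x y (z * x)) ∧ (∀ z, c.N x y z → c.M x y z 1 1) ∧
  (∀ z w u, c.N x y z → c.N x y w → c.N x y u → c.M x y z w u → c.M x y z (w * x) (u * z)) ∧
  (∀ z, ¬ c.Lt x y z 1) ∧ (∀ z w, c.N x y w → c.Lt x y z (w * x) → c.Lt x y z w ∨ z = w)

lemma dfΘ : Df fun v : Fin 3 → F => c.Θ (v 0) (v 1) := by
  unfold Θ
  repeat' first
    | apply Df.and | apply Df.all | apply Df.not | apply Df.imp | apply Df.or | apply Df.eq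
    | apply c.dfN | apply c.dfM | apply c.dfLt | apply TD.mul | apply TD.inv | exact TD.one
    | exact TD.var _

lemma lt_std (a b : ℕ) : c.Lt c.x₀ c.y₀ (c.x₀ ^ a) (c.x₀ ^ b) ↔ a < b := by
  rw [Lt, c.hN, c.hN]
  constructor
  · rintro ⟨-, k, hk⟩
    have : c.x₀ ^ b = c.x₀ ^ (a + k + 1) := by
      rw [pow_succ, pow_add, ← hk]; group
    have := c.inj this
    omega
  · intro h
    obtain ⟨k, rfl⟩ := Nat.exists_eq_add_of_lt h
    exact ⟨⟨a, rfl⟩, k, by rw [pow_succ, pow_add]; group⟩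

lemma Θ_std : c.Θ c.x₀ c.y₀ := by
  refine ⟨(c.hN _).2 ⟨0, (pow_zero _).symm⟩, fun z hz => ?_, fun z hz => ?_,
    fun z w u hz hw hu h => ?_, fun z h => ?_, fun z w hw h => ?_⟩
  · obtain ⟨k, rfl⟩ := (c.hN _).1 hz
    exact (c.hN _).2 ⟨k + 1, (pow_succ _ _).symm⟩
  · obtain ⟨k, rfl⟩ := (c.hN _).1 hz
    simpa using (c.hM k 0 0).2 rfl
  · obtain ⟨k, rfl⟩ := (c.hN _).1 hz
    obtain ⟨l, rfl⟩ := (c.hN _).1 hw
    obtain ⟨m, rfl⟩ := (c.hN _).1 hu
    rw [← pow_succ, ← pow_add, c.hM, ← (c.hM _ _ _).1 h]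
    ring
  · obtain ⟨k, rfl⟩ := (c.hN _).1 h.1
    rw [← pow_zero c.x₀, lt_std] at h
    omega
  · obtain ⟨k, rfl⟩ := (c.hN _).1 h.1
    obtain ⟨l, rfl⟩ := (c.hN _).1 hw
    rw [← pow_succ, lt_std] at h
    rw [lt_std]
    rcases Nat.lt_succ_iff_lt_or_eq.1 h with h | h
    · exact Or.inl h
    · exact Or.inr (by rw [h])

variable {c}

lemma Θ.nat {x y : F} (h : c.Θ x y) (k : ℕ) : c.N x y (x ^ k) := by
  induction k with
  | zero => simpa using h.1
  | succ k ih => rw [pow_succ]; exact h.2.1 _ ih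

lemma Θ.mul {x y : F} (h : c.Θ x y) (a b : ℕ) : c.M x y (x ^ a) (x ^ b) (x ^ (a * b)) := by
  induction b with
  | zero => simpa using h.2.2.1 _ (h.nat a)
  | succ b ih =>
    rw [pow_succ, mul_add, mul_one, pow_add]
    exact h.2.2.2.1 _ _ _ (h.nat _) (h.nat _) (h.nat _) ih

lemma Θ.lt {x y : F} (h : c.Θ x y) (z : F) (b : ℕ) (hz : c.Lt x y z (x ^ b)) :
    ∃ a < b, z = x ^ a := by
  induction b with
  | zero => exact absurd (by simpa using hz) (h.2.2.2.2.1 z)
  | succ b ih =>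
    rw [pow_succ] at hz
    rcases h.2.2.2.2.2 _ _ (h.nat b) hz with h' | h'
    · obtain ⟨a, ha, e⟩ := ih h'
      exact ⟨a, by omega, e⟩
    · exact ⟨b, by omega, h'⟩

end Ctx

/-- definable with the two parameters -/
def DP (P : F → F → (α → F) → Prop) : Prop :=
  Df fun w : Bool ⊕ α → F => P (w (.inl true)) (w (.inl false)) (fun i => w (.inr i))

/-- exponent of a term in the first parameter and the variables -/
def LT (F : Type) [Group F] (g : (α → ℕ) → ℕ) : Prop :=
  ∃ f : F → (α → F) → F, TD (fun w : Bool ⊕ α → F => f (w (.inl true)) (fun i => w (.inr i))) ∧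
    ∀ x v, f x (fun i => x ^ v i) = x ^ g v

lemma LT.var (i : α) : LT F fun v : α → ℕ => v i :=
  ⟨fun _ w => w i, TD.var _, fun _ _ => rfl⟩

lemma LT.const (n : ℕ) : LT F fun _ : α → ℕ => n :=
  ⟨fun x _ => x ^ n, (TD.var _).pow n, fun _ _ => rfl⟩

lemma LT.add {g h : (α → ℕ) → ℕ} (hg : LT F g) (hh : LT F h) : LT F fun v => g v + h v := by
  obtain ⟨f, hf, e⟩ := hg
  obtain ⟨f', hf', e'⟩ := hh
  exact ⟨fun x w => f x w * f' x w, hf.mul hf', fun x v => by simp only [e, e', pow_add]⟩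

/-- represented soundly for the standard parameters and completely for all good parameters -/
def SD (S : (α → ℕ) → Prop) : Prop :=
  ∃ P : F → F → (α → F) → Prop, DP P ∧ (∀ v, P c.x₀ c.y₀ (fun i => c.x₀ ^ v i) → S v) ∧
    ∀ x y, c.Θ x y → ∀ v, S v → P x y (fun i => x ^ v i)

variable {c}

lemma SD.of_iff {S T : (α → ℕ) → Prop} (h : SD c S) (e : ∀ v, S v ↔ T v) : SD c T := by
  rwa [← show S = T from funext fun v => propext (e v)]

lemma SD.and {S T : (α → ℕ) → Prop} (h : SD c S) (h' : SD c T) : SD c fun v => S v ∧ T v := by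
  obtain ⟨P, d, s, k⟩ := h
  obtain ⟨P', d', s', k'⟩ := h'
  exact ⟨fun x y w => P x y w ∧ P' x y w, Df.and d d', fun v h => ⟨s v h.1, s' v h.2⟩,
    fun x y hθ v h => ⟨k x y hθ v h.1, k' x y hθ v h.2⟩⟩

lemma SD.or {S T : (α → ℕ) → Prop} (h : SD c S) (h' : SD c T) : SD c fun v => S v ∨ T v := by
  obtain ⟨P, d, s, k⟩ := h
  obtain ⟨P', d', s', k'⟩ := h'
  exact ⟨fun x y w => P x y w ∨ P' x y w, Df.or d d', fun v h => h.imp (s v) (s' v),
    fun x y hθ v h => h.imp (k x y hθ v) (k' x y hθ v)⟩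

lemma SD.eq {g h : (α → ℕ) → ℕ} (hg : LT F g) (hh : LT F h) : SD c fun v => g v = h v := by
  obtain ⟨f, hf, e⟩ := hg
  obtain ⟨f', hf', e'⟩ := hh
  refine ⟨fun x _ w => f x w = f' x w, Df.eq hf hf', fun v h => c.inj ?_, fun x y _ v h => ?_⟩
  · simpa only [e, e'] using h
  · simp only [e, e', h]

lemma SD.mul {g h k : (α → ℕ) → ℕ} (hg : LT F g) (hh : LT F h) (hk : LT F k) :
    SD c fun v => g v * h v = k v := by
  obtain ⟨f, hf, e⟩ := hg
  obtain ⟨f', hf', e'⟩ := hh
  obtain ⟨f'', hf'', e''⟩ := hk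
  refine ⟨fun x y w => c.M x y (f x w) (f' x w) (f'' x w),
    c.dfM (TD.var _) (TD.var _) hf hf' hf'', fun v h => ?_, fun x y hθ v h => ?_⟩
  · simpa only [e, e', e'', c.hM] using h
  · simp only [e, e', e'', ← h]
    exact hθ.mul _ _

lemma SD.subst {S : (β → ℕ) → Prop} (h : SD c S) (g : β → (α → ℕ) → ℕ) (hg : ∀ j, LT F (g j)) :
    SD c fun v => S (fun j => g j v) := by
  obtain ⟨P, d, s, k⟩ := h
  choose f hf e using hg
  refine ⟨fun x y w => P x y (fun j => f j x w), ?_, fun v h => s _ ?_, fun x y hθ v h => ?_⟩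
  · exact Df.subst (α := Bool ⊕ α) d (fun j w => j.elim (fun b => w (.inl b))
      (fun j => f j (w (.inl true)) (fun i => w (.inr i))))
      (fun j => by
        cases j with
        | inl b => exact TD.var _
        | inr j => exact hf j)
  · simpa only [e] using h
  · simpa only [e] using k x y hθ _ h

lemma DP.opt {P : F → F → (Option α → F) → Prop} (d : DP P) :
    Df fun w : Option (Bool ⊕ α) → F => P (w (some (.inl true))) (w (some (.inl false)))
      (fun o => o.elim (w none) fun i => w (some (.inr i))) :=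
  Df.subst (α := Option (Bool ⊕ α)) d (fun j w => j.elim (fun b => w (some (.inl b)))
      (fun o : Option α => o.elim (w none) fun i => w (some (.inr i))))
      (fun j => by rcases j with _ | _ | _ <;> exact TD.var _)

lemma pow_elim (x : F) (a : ℕ) (v : α → ℕ) :
    (fun o : Option α => o.elim (x ^ a) fun i => x ^ v i) = fun o => x ^ (o.elim a v) :=
  funext fun o => by cases o <;> rfl

lemma SD.ex {S : (α → ℕ) → ℕ → Prop}
    (h : SD c fun w : Option α → ℕ => S (fun i => w (some i)) (w none)) :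
    SD c fun v => ∃ a, S v a := by
  obtain ⟨P, d, s, k⟩ := h
  refine ⟨fun x y w => ∃ z, c.N x y z ∧ P x y (fun o => o.elim z w),
    Df.ex ((c.dfN (TD.var _) (TD.var _) (TD.var _)).and d.opt), ?_, ?_⟩
  · rintro v ⟨z, hz, h⟩
    obtain ⟨a, rfl⟩ := (c.hN _).1 hz
    rw [pow_elim] at h
    exact ⟨a, s _ h⟩
  · rintro x y hθ v ⟨a, h⟩
    refine ⟨x ^ a, hθ.nat a, ?_⟩
    rw [pow_elim]
    exact k x y hθ _ h

lemma SD.ball {S : (α → ℕ) → ℕ → Prop} {g : (α → ℕ) → ℕ} (hg : LT F g)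
    (h : SD c fun w : Option α → ℕ => S (fun i => w (some i)) (w none)) :
    SD c fun v => ∀ a < g v, S v a := by
  obtain ⟨P, d, s, k⟩ := h
  obtain ⟨f, hf, e⟩ := hg
  refine ⟨fun x y w => ∀ z, c.Lt x y z (f x w) → P x y (fun o => o.elim z w),
    Df.all ((c.dfLt (TD.var _) (TD.var _) (TD.var _)
      (hf.subst (fun j w => w (some j)) (fun _ => TD.var _))).imp d.opt), ?_, ?_⟩
  · intro v h a ha
    have := h (c.x₀ ^ a) (by rw [e, c.lt_std]; exact ha)
    rw [pow_elim] at this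
    exact s _ this
  · intro x y hθ v h z hz
    rw [e] at hz
    obtain ⟨a, ha, rfl⟩ := hθ.lt _ _ hz
    rw [pow_elim]
    exact k x y hθ _ (h a ha)

lemma SD.lt {g h : (α → ℕ) → ℕ} (hg : LT F g) (hh : LT F h) : SD c fun v => g v < h v := by
  have : SD c fun v : Fin 2 → ℕ => ∃ a, v 0 + a + 1 = v 1 :=
    SD.ex (SD.eq (((LT.var _).add (LT.var _)).add (LT.const _)) (LT.var _))
  exact (this.subst ![g, h] (fun i => by fin_cases i <;> assumption)).of_iff fun v =>
    ⟨fun ⟨a, (ha : g v + a + 1 = h v)⟩ => by omega,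
      fun hv => ⟨h v - g v - 1, (by omega : g v + _ + 1 = h v)⟩⟩

lemma SD.pair {g h k : (α → ℕ) → ℕ} (hg : LT F g) (hh : LT F h) (hk : LT F k) :
    SD c fun v => Nat.pair (g v) (h v) = k v := by
  have : SD c fun v : Fin 3 → ℕ => (v 0 < v 1 ∧ ∃ s, v 1 * v 1 = s ∧ s + v 0 = v 2) ∨
      (v 1 < v 0 + 1 ∧ ∃ s, v 0 * v 0 = s ∧ s + v 0 + v 1 = v 2) := by
    repeat' first
      | apply SD.and | apply SD.or | apply SD.ex | apply SD.mul | apply SD.eq | apply SD.lt
      | apply LT.add | exact LT.var _ | exact LT.const _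
  refine (this.subst ![g, h, k] (fun i => by fin_cases i <;> assumption)).of_iff fun v => ?_
  change (g v < h v ∧ ∃ s, h v * h v = s ∧ s + g v = k v) ∨
      (h v < g v + 1 ∧ ∃ s, g v * g v = s ∧ s + g v + h v = k v) ↔ _
  simp only [exists_eq_left', Nat.pair]
  split_ifs <;> omega

lemma SD.beta {g h k : (α → ℕ) → ℕ} (hg : LT F g) (hh : LT F h) (hk : LT F k) :
    SD c fun v => Nat.beta (g v) (h v) = k v := by
  have : SD c fun v : Fin 3 → ℕ => ∃ a b, Nat.pair a b = v 0 ∧ ∃ m, (v 1 + 1) * b = m ∧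
      v 2 < m + 1 ∧ ∃ q s, (m + 1) * q = s ∧ v 2 + s = a := by
    repeat' first
      | apply SD.and | apply SD.ex | apply SD.pair | apply SD.mul | apply SD.eq | apply SD.lt
      | apply LT.add | exact LT.var _ | exact LT.const _
  refine (this.subst ![g, h, k] (fun i => by fin_cases i <;> assumption)).of_iff fun v => ?_
  change (∃ a b, Nat.pair a b = g v ∧ ∃ m, (h v + 1) * b = m ∧
      k v < m + 1 ∧ ∃ q s, (m + 1) * q = s ∧ k v + s = a) ↔ _
  simp only [exists_eq_left', Nat.beta]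
  constructor
  · rintro ⟨a, b, e, h1, q, rfl⟩
    rw [← e, Nat.unpair_pair, Nat.add_mul_mod_self_left, Nat.mod_eq_of_lt h1]
  · intro e
    exact ⟨_, _, Nat.pair_unpair _, e ▸ Nat.mod_lt _ (Nat.succ_pos _), _, e ▸ Nat.mod_add_div _ _⟩

lemma mem_prec (f : Part ℕ) (g : ℕ → ℕ → Part ℕ) (n out : ℕ) :
    out ∈ (Nat.rec f (fun y IH => IH.bind fun i => g y i) n : Part ℕ) ↔
      ∃ s, Nat.beta s 0 ∈ f ∧ (∀ i < n, Nat.beta s (i + 1) ∈ g i (Nat.beta s i)) ∧
        Nat.beta s n = out := by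
  have key : ∀ n out, out ∈ (Nat.rec f (fun y IH => IH.bind fun i => g y i) n : Part ℕ) ↔
      ∃ s : ℕ → ℕ, s 0 ∈ f ∧ (∀ i < n, s (i + 1) ∈ g i (s i)) ∧ s n = out := by
    intro n
    induction n with
    | zero =>
      intro out
      exact ⟨fun h => ⟨fun _ => out, h, fun _ hi => absurd hi (by omega), rfl⟩,
        fun ⟨s, h, _, e⟩ => e ▸ h⟩
    | succ n ih =>
      intro out
      simp only [Part.mem_bind_iff, ih]
      constructor
      · rintro ⟨a, ⟨s, h0, h1, rfl⟩, h2⟩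
        refine ⟨Function.update s (n + 1) out, by simpa using h0, fun i hi => ?_, by simp⟩
        rw [Function.update_of_ne (by omega : i ≠ n + 1)]
        rcases Nat.lt_succ_iff_lt_or_eq.1 hi with h | rfl
        · rw [Function.update_of_ne (by omega)]; exact h1 i h
        · simpa using h2
      · rintro ⟨s, h0, h1, rfl⟩
        exact ⟨s n, ⟨s, h0, fun i hi => h1 i (by omega), rfl⟩, h1 n (by omega)⟩
  rw [key]
  constructor
  · rintro ⟨s, h0, h1, h2⟩
    have hb : ∀ i ≤ n, Nat.beta (Nat.unbeta (List.ofFn fun j : Fin (n + 1) => s j)) i = s i := by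
      intro i hi
      have := Nat.beta_unbeta_coe (List.ofFn fun j : Fin (n + 1) => s j) ⟨i, by simp; omega⟩
      rwa [Fin.getElem_fin, List.getElem_ofFn] at this
    refine ⟨_, ?_, fun i hi => ?_, (hb n le_rfl).trans h2⟩
    · rwa [hb 0 (by omega)]
    · rw [hb _ (by omega), hb _ (by omega)]; exact h1 i hi
  · rintro ⟨s, h⟩
    exact ⟨Nat.beta s, h⟩

lemma SD.partrec {f : ℕ →. ℕ} (hf : Nat.Partrec f) :
    ∀ {α : Type} {g h : (α → ℕ) → ℕ}, LT F g → LT F h → SD c fun v => h v ∈ f (g v) := by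
  suffices H : SD c fun v : Fin 2 → ℕ => v 1 ∈ f (v 0) from
    fun {_ g h} hg hh => H.subst ![g, h] (fun i => by fin_cases i <;> assumption)
  induction hf with
  | zero => exact (SD.eq (LT.var 1) (LT.const 0)).of_iff fun v => by simp [pure, PFun.pure]
  | succ => exact (SD.eq (LT.var 1) ((LT.var 0).add (LT.const 1))).of_iff fun v => by simp
  | left =>
    refine (SD.ex (S := fun v b => Nat.pair (v 1) b = v 0)
      (SD.pair (LT.var _) (LT.var _) (LT.var _))).of_iff fun v => ?_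
    simp only [PFun.coe_val, Part.mem_some_iff]
    exact ⟨fun ⟨b, h⟩ => by rw [← h, Nat.unpair_pair], fun h => ⟨_, by rw [h, Nat.pair_unpair]⟩⟩
  | right =>
    refine (SD.ex (S := fun v b => Nat.pair b (v 1) = v 0)
      (SD.pair (LT.var _) (LT.var _) (LT.var _))).of_iff fun v => ?_
    simp only [PFun.coe_val, Part.mem_some_iff]
    exact ⟨fun ⟨b, h⟩ => by rw [← h, Nat.unpair_pair], fun h => ⟨_, by rw [h, Nat.pair_unpair]⟩⟩
  | @pair f g _ _ ihf ihg =>
    have hf : ∀ {α : Type} {g h : (α → ℕ) → ℕ}, LT F g → LT F h → SD c fun v => h v ∈ f (g v) :=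
      fun hg hh => ihf.subst ![_, _] (fun i => by fin_cases i <;> assumption)
    have hg : ∀ {α : Type} {k h : (α → ℕ) → ℕ}, LT F k → LT F h → SD c fun v => h v ∈ g (k v) :=
      fun hg hh => ihg.subst ![_, _] (fun i => by fin_cases i <;> assumption)
    have : SD c fun v : Fin 2 → ℕ => ∃ a b, a ∈ f (v 0) ∧ b ∈ g (v 0) ∧ Nat.pair a b = v 1 :=
      SD.ex (SD.ex ((hf (LT.var _) (LT.var _)).and ((hg (LT.var _) (LT.var _)).and
        (SD.pair (LT.var _) (LT.var _) (LT.var _)))))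
    exact this.of_iff fun v => by simp [Seq.seq]
  | @comp f g _ _ ihf ihg =>
    have hf : ∀ {α : Type} {g h : (α → ℕ) → ℕ}, LT F g → LT F h → SD c fun v => h v ∈ f (g v) :=
      fun hg hh => ihf.subst ![_, _] (fun i => by fin_cases i <;> assumption)
    have hg : ∀ {α : Type} {k h : (α → ℕ) → ℕ}, LT F k → LT F h → SD c fun v => h v ∈ g (k v) :=
      fun hg hh => ihg.subst ![_, _] (fun i => by fin_cases i <;> assumption)
    have : SD c fun v : Fin 2 → ℕ => ∃ a, a ∈ g (v 0) ∧ v 1 ∈ f a :=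
      SD.ex ((hg (LT.var _) (LT.var _)).and (hf (LT.var _) (LT.var _)))
    exact this.of_iff fun v => Part.mem_bind_iff.symm
  | @prec f g _ _ ihf ihg =>
    have hf : ∀ {α : Type} {g h : (α → ℕ) → ℕ}, LT F g → LT F h → SD c fun v => h v ∈ f (g v) :=
      fun hg hh => ihf.subst ![_, _] (fun i => by fin_cases i <;> assumption)
    have hg : ∀ {α : Type} {k h : (α → ℕ) → ℕ}, LT F k → LT F h → SD c fun v => h v ∈ g (k v) :=
      fun hg hh => ihg.subst ![_, _] (fun i => by fin_cases i <;> assumption)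
    have : SD c fun v : Fin 2 → ℕ => ∃ a n, Nat.pair a n = v 0 ∧ ∃ s,
        (∃ u, Nat.beta s 0 = u ∧ u ∈ f a) ∧
        (∀ i < n, ∃ u, Nat.beta s i = u ∧ ∃ w, Nat.beta s (i + 1) = w ∧ ∃ d, Nat.pair i u = d ∧
          ∃ e, Nat.pair a d = e ∧ w ∈ g e) ∧ Nat.beta s n = v 1 := by
      repeat' first
        | apply SD.and | apply SD.ex | apply SD.ball | apply SD.pair | apply SD.beta
        | exact hg (LT.var _) (LT.var _) | exact hf (LT.var _) (LT.var _)
        | apply LT.add | exact LT.var _ | exact LT.const _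
    refine this.of_iff fun v => ?_
    simp only [exists_eq_left']
    refine Iff.trans ?_ (mem_prec (f (v 0).unpair.1)
      (fun y i => g (Nat.pair (v 0).unpair.1 (Nat.pair y i))) (v 0).unpair.2 (v 1)).symm
    constructor
    · rintro ⟨a, n, e, h⟩
      rw [← e, Nat.unpair_pair]; exact h
    · exact fun h => ⟨_, _, Nat.pair_unpair _, h⟩
  | @rfind f _ ihf =>
    have hf : ∀ {α : Type} {g h : (α → ℕ) → ℕ}, LT F g → LT F h → SD c fun v => h v ∈ f (g v) :=
      fun hg hh => ihf.subst ![_, _] (fun i => by fin_cases i <;> assumption)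
    have : SD c fun v : Fin 2 → ℕ => (∃ d, Nat.pair (v 0) (v 1) = d ∧ 0 ∈ f d) ∧
        ∀ m < v 1, ∃ d, Nat.pair (v 0) m = d ∧ ∃ u, u + 1 ∈ f d := by
      repeat' first
        | apply SD.and | apply SD.ex | apply SD.ball | apply SD.pair
        | exact hf (LT.var _) (LT.const _) | exact hf (LT.var _) ((LT.var _).add (LT.const _))
        | exact LT.var _
    refine this.of_iff fun v => ?_
    refine Iff.trans ?_ Nat.mem_rfind.symm
    simp only [exists_eq_left', Part.map_eq_map, Part.mem_map_iff,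
      decide_eq_true_eq, exists_eq_right, decide_eq_false_iff_not]
    refine and_congr Iff.rfl ⟨fun h m hm => ?_, fun h m hm => ?_⟩
    · obtain ⟨u, hu⟩ := h m hm
      exact ⟨u + 1, hu, by omega⟩
    · obtain ⟨u, hu, h0⟩ := h hm
      exact ⟨u - 1, by rwa [Nat.sub_add_cancel (by omega)]⟩

theorem Ctx.undecidable (c : Ctx F) : ¬ ComputablePred fun n => n ∈ theoryCodes F := by
  intro h
  let f : ℕ →. ℕ := fun m => Nat.Partrec.Code.eval (Denumerable.ofNat Nat.Partrec.Code m) 0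
  have hf : Nat.Partrec f := Partrec.nat_iff.1
    (Nat.Partrec.Code.eval_part.comp (Computable.ofNat _) (Computable.const 0))
  obtain ⟨P, d, s, k⟩ : SD c fun v : Unit → ℕ => ∃ out, out ∈ f (v ()) :=
    SD.ex (SD.partrec hf (LT.var _) (LT.var _))
  have hQ : Df fun v : Fin 3 → F => c.Θ (v 0) (v 1) → P (v 0) (v 1) (fun _ => v 2) :=
    c.dfΘ.imp (Df.subst d (fun j v => j.elim (fun b => cond b (v 0) (v 1)) (fun _ => v 2))
      (fun j => by rcases j with (_ | _) | _ <;> exact TD.var _))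
  have h2 := computablePred_of_theory h (Q := fun x y w => c.Θ x y → P x y (fun _ => w)) hQ
  obtain ⟨g, hg, e⟩ := ComputablePred.computable_iff.1 h2
  apply ComputablePred.halting_problem 0
  refine ComputablePred.computable_iff.2
    ⟨fun cd => g (Encodable.encode cd), hg.comp Computable.encode, ?_⟩
  funext cd
  rw [← congrFun e (Encodable.encode cd)]
  apply propext
  rw [Part.dom_iff_mem]
  constructor
  · intro hd x y hθ
    exact k x y hθ (fun _ => Encodable.encode cd) (by simpa [f] using hd)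
  · intro hd
    simpa [f] using s (fun _ => Encodable.encode cd) (hd _ _ c.Θ_std)

end Pool.Agent.P.MP_c4850b_lc
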