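import Pool.Agent.P.MP_c4850b_lc.ProP
import Pool.Agent.P.MP_c4850b_lc.Sigma

/-!
Arithmetic in the powers of a basis element.
-/

namespace Pool.Agent.P.MP_c4850b_lc

open scoped commutatorElement

section
variable {G : Type} [Group G]

/-- natural powers of `x` -/
def NatS (e : ℕ) (x y z : G) : Prop :=
  z * x = x * z ∧ ∃ g, RR e x y g z ∧ ¬ RR e x y g x⁻¹ ∧
    ∀ w, w * x = x * w → RR e x y g w → w = 1 ∨ RR e x y g (w * x⁻¹)

/-- divisibility of exponents -/
def DvdS (e : ℕ) (x y a b : G) : Prop :=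
  ∃ g, RR e x y g b ∧ ∀ w, NatS e x y w → RR e x y g w →
    w = 1 ∨ ¬ a = 1 ∧ ∃ w', NatS e x y w' ∧ RR e x y g w' ∧ w = w' * a

/-- squaring of exponents -/
def SqS (e : ℕ) (x y a s : G) : Prop :=
  ∀ d, NatS e x y d → (DvdS e x y (s * a) d ↔ DvdS e x y a d ∧ DvdS e x y (a * x) d)

/-- multiplication of exponents -/
def MulS (e : ℕ) (x y a b c : G) : Prop :=
  ∃ s t u, NatS e x y s ∧ NatS e x y t ∧ NatS e x y u ∧
    SqS e x y a s ∧ SqS e x y b t ∧ SqS e x y (a * b) u ∧ u = s * t * c * c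

variable {α : Type} {f g h k l : (α → G) → G}

lemma Df.ns (hf : TD f) (hg : TD g) (hh : TD h) : Df fun v => NS (f v) (g v) (h v) := by
  have : Df fun v : Fin 3 → G => NS (v 0) (v 1) (v 2) := by
    unfold NS
    repeat' first
      | apply Df.ex | apply Df.and | apply Df.eq | apply TD.mul | apply TD.inv | exact TD.var _
  exact this.subst ![f, g, h] (fun i => by fin_cases i <;> assumption)

lemma Df.rr (e : ℕ) (hf : TD f) (hg : TD g) (hh : TD h) (hk : TD k) :
    Df fun v => RR e (f v) (g v) (h v) (k v) := by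
  have : Df fun v : Fin 4 → G => RR e (v 0) (v 1) (v 2) (v 3) := by
    unfold RR psi
    repeat' first
      | apply Df.ex | apply Df.and | apply Df.ns | apply Df.eq | apply TD.mul | apply TD.inv
      | apply TD.pow | exact TD.var _
  exact this.subst ![f, g, h, k] (fun i => by fin_cases i <;> assumption)

lemma Df.natS (e : ℕ) (hf : TD f) (hg : TD g) (hh : TD h) :
    Df fun v => NatS e (f v) (g v) (h v) := by
  have : Df fun v : Fin 3 → G => NatS e (v 0) (v 1) (v 2) := by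
    unfold NatS
    repeat' first
      | apply Df.rr | apply Df.ex | apply Df.and | apply Df.all | apply Df.not | apply Df.imp
      | apply Df.or | apply Df.eq | apply TD.mul | apply TD.inv | exact TD.one | exact TD.var _
  exact this.subst ![f, g, h] (fun i => by fin_cases i <;> assumption)

lemma Df.dvdS (e : ℕ) (hf : TD f) (hg : TD g) (hh : TD h) (hk : TD k) :
    Df fun v => DvdS e (f v) (g v) (h v) (k v) := by
  have : Df fun v : Fin 4 → G => DvdS e (v 0) (v 1) (v 2) (v 3) := by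
    unfold DvdS
    repeat' first
      | apply Df.rr | apply Df.natS | apply Df.ex | apply Df.and | apply Df.all | apply Df.not
      | apply Df.imp | apply Df.or | apply Df.eq | apply TD.mul | exact TD.one | exact TD.var _
  exact this.subst ![f, g, h, k] (fun i => by fin_cases i <;> assumption)

lemma Df.sqS (e : ℕ) (hf : TD f) (hg : TD g) (hh : TD h) (hk : TD k) :
    Df fun v => SqS e (f v) (g v) (h v) (k v) := by
  have : Df fun v : Fin 4 → G => SqS e (v 0) (v 1) (v 2) (v 3) := by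
    unfold SqS
    repeat' first
      | apply Df.dvdS | apply Df.natS | apply Df.iff | apply Df.and | apply Df.all
      | apply Df.imp | apply TD.mul | exact TD.var _
  exact this.subst ![f, g, h, k] (fun i => by fin_cases i <;> assumption)

lemma Df.mulS (e : ℕ) : Df fun v : Fin 5 → G => MulS e (v 0) (v 1) (v 2) (v 3) (v 4) := by
  unfold MulS
  repeat' first
    | apply Df.sqS | apply Df.natS | apply Df.ex | apply Df.and | apply Df.eq
    | apply TD.mul | exact TD.var _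

end

variable {p : ℕ} {X F : Type} [Group F] [TopologicalSpace F] {ι : X → F}
  (h : IsFreeProP p ι) (hp : p.Prime) {i₀ i₁ : X} (hi : i₀ ≠ i₁)

include h hp hi

lemma natS_iff (z : F) : NatS (p ^ 2) (ι i₀) (ι i₁) z ↔ ∃ k : ℕ, z = ι i₀ ^ k := by
  have inj := h.pow_injective hp i₀
  constructor
  · rintro ⟨hz, g, h1, h2, h3⟩
    by_contra hc
    apply h2
    apply h.RR_inv hp i₀ hz
    intro k
    induction k with
    | zero => simpa using h1
    | succ k ih =>
      have c : Commute (z * (ι i₀ ^ k)⁻¹) (ι i₀) :=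
        Commute.mul_left hz ((Commute.refl _).pow_left k).inv_left
      rcases h3 _ c ih with e | e
      · exact absurd ⟨k, mul_inv_eq_one.1 e⟩ hc
      · rwa [pow_succ' (ι i₀), mul_inv_rev, ← mul_assoc]
  · rintro ⟨k, rfl⟩
    have c : ∀ j : ℕ, ι i₀ ^ j * ι i₀ = ι i₀ * ι i₀ ^ j := fun j => (Commute.refl _).pow_left j
    refine ⟨c k, gS (p ^ 2) (ι i₀) (ι i₁) (List.range (k + 1)),
      (h.RR_iff hp hi (c k) _).2 ⟨k, by simp, rfl⟩, fun hR => ?_, fun w hw hR => ?_⟩
    · obtain ⟨ν, -, e⟩ := (h.RR_iff hp hi (by simp) _).1 hR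
      have : ι i₀ ^ 0 = ι i₀ ^ (ν + 1) := by rw [pow_succ, ← e]; simp
      exact absurd (inj this) (by omega)
    · obtain ⟨ν, hν, rfl⟩ := (h.RR_iff hp hi hw _).1 hR
      cases ν with
      | zero => exact Or.inl (pow_zero _)
      | succ ν =>
        rw [pow_succ, mul_inv_cancel_right]
        exact Or.inr ((h.RR_iff hp hi (c ν) _).2 ⟨ν, by simp at hν ⊢; omega, rfl⟩)

lemma dvdS_iff (a b : ℕ) : DvdS (p ^ 2) (ι i₀) (ι i₁) (ι i₀ ^ a) (ι i₀ ^ b) ↔ a ∣ b := by
  have inj := h.pow_injective hp i₀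
  have c : ∀ j : ℕ, ι i₀ ^ j * ι i₀ = ι i₀ * ι i₀ ^ j := fun j => (Commute.refl _).pow_left j
  constructor
  · rintro ⟨g, h1, h2⟩
    induction b using Nat.strong_induction_on with
    | _ b ih =>
      rcases h2 _ ((natS_iff h hp hi _).2 ⟨b, rfl⟩) h1 with e | ⟨ha, w', hw', h3, e⟩
      · rw [inj (e.trans (pow_zero _).symm)]
        exact dvd_zero a
      · obtain ⟨b', rfl⟩ := (natS_iff h hp hi _).1 hw'
        rw [← pow_add] at e
        obtain rfl : b = b' + a := inj e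
        have : a ≠ 0 := fun e => ha (by rw [e, pow_zero])
        exact dvd_add (ih b' (by omega) h3) dvd_rfl
  · rintro ⟨k, rfl⟩
    refine ⟨gS (p ^ 2) (ι i₀) (ι i₁) ((List.range (k + 1)).map (a * ·)),
      (h.RR_iff hp hi (c _) _).2 ⟨a * k, List.mem_map.2 ⟨k, by simp, rfl⟩, rfl⟩, fun w hw hR => ?_⟩
    obtain ⟨_, hν, rfl⟩ := (h.RR_iff hp hi hw.1 _).1 hR
    obtain ⟨ν, hν, rfl⟩ := List.mem_map.1 hν
    by_cases ha : a = 0
    · exact Or.inl (by simp [ha])
    cases ν with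
    | zero => exact Or.inl (by simp)
    | succ ν =>
      refine Or.inr ⟨fun e => ha (inj (e.trans (pow_zero _).symm)), ι i₀ ^ (a * ν),
        (natS_iff h hp hi _).2 ⟨_, rfl⟩, (h.RR_iff hp hi (c _) _).2
          ⟨a * ν, List.mem_map.2 ⟨ν, by simp at hν ⊢; omega, rfl⟩, rfl⟩, ?_⟩
      rw [← pow_add, mul_add, mul_one]

lemma sqS_iff (a s : ℕ) : SqS (p ^ 2) (ι i₀) (ι i₁) (ι i₀ ^ a) (ι i₀ ^ s) ↔ s = a * a := by
  have key : ∀ d : ℕ, (a ∣ d ∧ a + 1 ∣ d) ↔ a * a + a ∣ d := fun d => by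
    rw [show a * a + a = a * (a + 1) by ring]
    exact ⟨fun h => Nat.Coprime.mul_dvd_of_dvd_of_dvd (by simp) h.1 h.2,
      fun h => ⟨dvd_trans (dvd_mul_right _ _) h, dvd_trans (dvd_mul_left _ _) h⟩⟩
  have : SqS (p ^ 2) (ι i₀) (ι i₁) (ι i₀ ^ a) (ι i₀ ^ s) ↔ ∀ d, (s + a ∣ d ↔ a * a + a ∣ d) := by
    constructor
    · intro H d
      have := H _ ((natS_iff h hp hi _).2 ⟨d, rfl⟩)
      rwa [← pow_add, ← pow_succ, dvdS_iff h hp hi, dvdS_iff h hp hi, dvdS_iff h hp hi, key] at this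
    · intro H d hd
      obtain ⟨d, rfl⟩ := (natS_iff h hp hi _).1 hd
      rw [← pow_add, ← pow_succ, dvdS_iff h hp hi, dvdS_iff h hp hi, dvdS_iff h hp hi, key, H]
  rw [this]
  constructor
  · intro H
    have := Nat.dvd_antisymm ((H _).2 dvd_rfl) ((H _).1 dvd_rfl)
    omega
  · rintro rfl d
    rfl

lemma mulS_iff (a b c : ℕ) :
    MulS (p ^ 2) (ι i₀) (ι i₁) (ι i₀ ^ a) (ι i₀ ^ b) (ι i₀ ^ c) ↔ a * b = c := by
  have inj := h.pow_injective hp i₀
  constructor
  · rintro ⟨s, t, u, hs, ht, hu, h1, h2, h3, h4⟩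
    obtain ⟨s, rfl⟩ := (natS_iff h hp hi _).1 hs
    obtain ⟨t, rfl⟩ := (natS_iff h hp hi _).1 ht
    obtain ⟨u, rfl⟩ := (natS_iff h hp hi _).1 hu
    rw [← pow_add] at h3
    rw [sqS_iff h hp hi] at h1 h2 h3
    rw [← pow_add, ← pow_add, ← pow_add] at h4
    have := inj h4
    nlinarith
  · rintro rfl
    refine ⟨_, _, _, (natS_iff h hp hi _).2 ⟨a * a, rfl⟩, (natS_iff h hp hi _).2 ⟨b * b, rfl⟩,
      (natS_iff h hp hi _).2 ⟨(a + b) * (a + b), rfl⟩, (sqS_iff h hp hi _ _).2 rfl,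
      (sqS_iff h hp hi _ _).2 rfl, ?_, ?_⟩
    · rw [← pow_add, sqS_iff h hp hi]
    · rw [← pow_add, ← pow_add, ← pow_add]; congr 1; ring

theorem undecidable : ¬ ComputablePred fun n => n ∈ theoryCodes F :=
  Ctx.undecidable
    { N := NatS (p ^ 2)
      M := MulS (p ^ 2)
      dN := Df.natS _ (TD.var _) (TD.var _) (TD.var _)
      dM := Df.mulS _
      x₀ := ι i₀
      y₀ := ι i₁
      inj := h.pow_injective hp i₀
      hN := natS_iff h hp hi
      hM := mulS_iff h hp hi }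

end Pool.Agent.P.MP_c4850b_lc
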