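import Pool.Agent.P.MP_c4850b_lc.Defs

/-!
Combinators for parameter-free definability in a group, and injectivity of the numbering.
-/

namespace Pool.Agent.P.MP_c4850b_lc

open FirstOrder Language
open scoped commutatorElement

attribute [local instance] grpStructure

variable {F : Type} [Group F] {α β : Type}

/-- given by a term -/
def TD (f : (α → F) → F) : Prop := ∃ t : grpLang.Term α, ∀ v, t.realize v = f v

/-- given by a formula -/
def Df (P : (α → F) → Prop) : Prop := ∃ φ : grpLang.Formula α, ∀ v, φ.Realize v ↔ P v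

lemma TD.var (i : α) : TD fun v : α → F => v i := ⟨.var i, fun _ => rfl⟩

lemma TD.one : TD fun _ : α → F => (1 : F) := ⟨.func GrpFunc.one ![], fun _ => rfl⟩

lemma TD.inv {f : (α → F) → F} (hf : TD f) : TD fun v => (f v)⁻¹ := by
  obtain ⟨t, ht⟩ := hf
  exact ⟨.func GrpFunc.inv ![t], fun v => congrArg (·⁻¹) (ht v)⟩

lemma TD.mul {f g : (α → F) → F} (hf : TD f) (hg : TD g) : TD fun v => f v * g v := by
  obtain ⟨t, ht⟩ := hf
  obtain ⟨s, hs⟩ := hg
  exact ⟨.func GrpFunc.mul ![t, s], fun v => congrArg₂ (· * ·) (ht v) (hs v)⟩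

lemma TD.pow {f : (α → F) → F} (hf : TD f) (n : ℕ) : TD fun v => f v ^ n := by
  induction n with
  | zero => simpa using TD.one
  | succ n ih => simpa [pow_succ] using ih.mul hf

lemma TD.comm {f g : (α → F) → F} (hf : TD f) (hg : TD g) : TD fun v => ⁅f v, g v⁆ :=
  ((hf.mul hg).mul hf.inv).mul hg.inv

lemma TD.subst {f : (β → F) → F} (hf : TD f) (t : β → (α → F) → F) (ht : ∀ i, TD (t i)) :
    TD fun v => f (fun i => t i v) := by
  obtain ⟨s, hs⟩ := hf
  choose u hu using ht
  refine ⟨s.subst u, fun v => ?_⟩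
  rw [Term.realize_subst, hs]
  simp only [hu]

lemma Df.of_iff {P Q : (α → F) → Prop} (h : Df P) (e : ∀ v, P v ↔ Q v) : Df Q := by
  obtain ⟨φ, hφ⟩ := h
  exact ⟨φ, fun v => (hφ v).trans (e v)⟩

lemma Df.eq {f g : (α → F) → F} (hf : TD f) (hg : TD g) : Df fun v => f v = g v := by
  obtain ⟨t, ht⟩ := hf
  obtain ⟨s, hs⟩ := hg
  exact ⟨t.equal s, fun v => by rw [Formula.realize_equal, ht, hs]⟩

lemma Df.not {P : (α → F) → Prop} (h : Df P) : Df fun v => ¬ P v := by
  obtain ⟨φ, hφ⟩ := h
  exact ⟨φ.not, fun v => by rw [Formula.realize_not, hφ]⟩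

lemma Df.imp {P Q : (α → F) → Prop} (h : Df P) (h' : Df Q) : Df fun v => P v → Q v := by
  obtain ⟨φ, hφ⟩ := h
  obtain ⟨ψ, hψ⟩ := h'
  exact ⟨φ.imp ψ, fun v => by rw [Formula.realize_imp, hφ, hψ]⟩

lemma Df.and {P Q : (α → F) → Prop} (h : Df P) (h' : Df Q) : Df fun v => P v ∧ Q v :=
  (h.imp h'.not).not.of_iff fun _ => by tauto

lemma Df.or {P Q : (α → F) → Prop} (h : Df P) (h' : Df Q) : Df fun v => P v ∨ Q v :=
  (h.not.imp h').of_iff fun _ => by tauto

lemma Df.iff {P Q : (α → F) → Prop} (h : Df P) (h' : Df Q) : Df fun v => P v ↔ Q v :=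
  ((h.imp h').and (h'.imp h)).of_iff fun _ => by tauto

lemma Df.subst {P : (β → F) → Prop} (h : Df P) (t : β → (α → F) → F) (ht : ∀ i, TD (t i)) :
    Df fun v => P (fun i => t i v) := by
  obtain ⟨φ, hφ⟩ := h
  choose u hu using ht
  refine ⟨BoundedFormula.subst φ u, fun v => ?_⟩
  rw [Formula.Realize, BoundedFormula.realize_subst]
  simp only [hu]
  exact hφ _

lemma Df.ex {P : (α → F) → F → Prop}
    (h : Df fun w : Option α → F => P (fun i => w (some i)) (w none)) : Df fun v => ∃ a, P v a := by
  obtain ⟨φ, hφ⟩ := h.subst (α := α ⊕ Unit)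
    (fun o w => o.elim (w (.inr ())) (fun i => w (.inl i)))
    (fun o => by cases o <;> exact TD.var _)
  refine ⟨φ.iExs Unit, fun v => ?_⟩
  rw [Formula.realize_iExs]
  simp only [hφ]
  exact ⟨fun ⟨i, hi⟩ => ⟨i (), hi⟩, fun ⟨a, ha⟩ => ⟨fun _ => a, ha⟩⟩

lemma Df.all {P : (α → F) → F → Prop}
    (h : Df fun w : Option α → F => P (fun i => w (some i)) (w none)) : Df fun v => ∀ a, P v a :=
  (Df.ex (P := fun v a => ¬ P v a) h.not).not.of_iff fun _ => by simp

lemma termCode_injective (n : ℕ) : Function.Injective (termCode (n := n)) := by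
  intro s
  induction s with
  | var v =>
    intro t h
    cases t with
    | var w =>
      rcases v with v | v
      · exact v.elim
      rcases w with w | w
      · exact w.elim
      have := (Nat.pair_eq_pair.1 h).2
      rw [Fin.ext this]
    | func f ts => exact absurd (Nat.pair_eq_pair.1 h).1 (by simp)
  | @func l f ts ih =>
    intro t h
    cases t with
    | var w => exact absurd (Nat.pair_eq_pair.1 h).1 (by simp)
    | @func l' f' ts' =>
      obtain ⟨h1, h2⟩ := Nat.pair_eq_pair.1 h
      obtain rfl : l = l' := by omega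
      have h3 := List.ofFn_injective (Encodable.encode_injective h2)
      obtain rfl : ts = ts' := funext fun i => ih i (congrFun h3 i)
      cases f <;> cases f' <;> rfl

lemma formulaCode_injective {n : ℕ} (φ : grpLang.BoundedFormula Empty n) :
    ∀ ψ, formulaCode φ = formulaCode ψ → φ = ψ := by
  induction φ with
  | falsum =>
    intro ψ h
    cases ψ with
    | falsum => rfl
    | rel r _ => exact r.elim
    | _ => exact absurd (Nat.pair_eq_pair.1 h).1 (by simp)
  | equal s t =>
    intro ψ h
    cases ψ with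
    | equal s' t' =>
      obtain ⟨h1, h2⟩ := Nat.pair_eq_pair.1 (Nat.pair_eq_pair.1 h).2
      rw [termCode_injective _ h1, termCode_injective _ h2]
    | rel r _ => exact r.elim
    | _ => exact absurd (Nat.pair_eq_pair.1 h).1 (by simp)
  | rel r _ => exact r.elim
  | imp φ1 φ2 ih1 ih2 =>
    intro ψ h
    cases ψ with
    | imp ψ1 ψ2 =>
      obtain ⟨h1, h2⟩ := Nat.pair_eq_pair.1 (Nat.pair_eq_pair.1 h).2
      rw [ih1 _ h1, ih2 _ h2]
    | rel r _ => exact r.elim
    | _ => exact absurd (Nat.pair_eq_pair.1 h).1 (by simp)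
  | all φ1 ih =>
    intro ψ h
    cases ψ with
    | all ψ1 => rw [ih _ (Nat.pair_eq_pair.1 h).2]
    | rel r _ => exact r.elim
    | _ => exact absurd (Nat.pair_eq_pair.1 h).1 (by simp)

/-- the term for the `m`-th power of the first variable -/
def powTerm : ℕ → grpLang.Term (Empty ⊕ Fin 3)
  | 0 => .func GrpFunc.one ![]
  | m + 1 => .func GrpFunc.mul ![powTerm m, .var (.inr 0)]

lemma realize_powTerm (m : ℕ) (v : Empty ⊕ Fin 3 → F) :
    (powTerm m).realize v = v (.inr 0) ^ m := by
  induction m with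
  | zero => exact (pow_zero _).symm
  | succ m ih => rw [pow_succ, ← ih]; rfl

lemma primrec_powTerm : Primrec fun m => termCode (powTerm m) := by
  have h : Primrec fun m : ℕ => Nat.rec (motive := fun _ => ℕ) (termCode (powTerm 0))
      (fun _ c => Nat.pair 3 (Encodable.encode [c, Nat.pair 0 0])) m :=
    Primrec.nat_rec₁ _ (Primrec₂.natPair.comp (Primrec.const 3)
      (Primrec.encode.comp (Primrec.list_cons.comp Primrec.snd (Primrec.const _)))).to₂
  refine h.of_eq fun m => ?_
  induction m with
  | zero => rfl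
  | succ m ih => simp only [ih]; rfl

/-- if the theory is decidable then so is every family of instances of a definable relation -/
lemma computablePred_of_theory (h : ComputablePred fun n => n ∈ theoryCodes F)
    {Q : F → F → F → Prop} (hQ : Df fun v : Fin 3 → F => Q (v 0) (v 1) (v 2)) :
    ComputablePred fun m : ℕ => ∀ x y : F, Q x y (x ^ m) := by
  obtain ⟨φ, hφ⟩ := hQ
  let Ψ : grpLang.BoundedFormula Empty 3 := BoundedFormula.relabel Sum.inr φ
  let σ : ℕ → grpLang.Sentence := fun m =>
    .all (.all (.all (.imp (.equal (.var (.inr 2)) (powTerm m)) Ψ)))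
  have hσ : ∀ m, (F ⊨ σ m) ↔ ∀ x y : F, Q x y (x ^ m) := by
    intro m
    simp only [σ, Sentence.Realize, Formula.Realize, BoundedFormula.realize_all,
      BoundedFormula.realize_imp]
    refine forall_congr' fun x => forall_congr' fun y => ?_
    have key : ∀ w : F, (BoundedFormula.Realize Ψ default
        (Fin.snoc (Fin.snoc (Fin.snoc default x) y) w) ↔ Q x y w) := fun w =>
      (Formula.realize_relabel_sumInr φ).trans (hφ _)
    have key2 : ∀ w : F, ((BoundedFormula.equal (Term.var (Sum.inr 2)) (powTerm m)).Realize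
        (default : Empty → F) (Fin.snoc (Fin.snoc (Fin.snoc default x) y) w) ↔ w = x ^ m) := by
      intro w
      change _ = _ ↔ _
      rw [realize_powTerm]
      rfl
    simp only [key, key2, forall_eq]
  have hc : Computable fun m => formulaCode (σ m) := by
    have : Primrec fun m => Nat.pair 3 (Nat.pair 3 (Nat.pair 3 (Nat.pair 2 (Nat.pair
        (Nat.pair 1 (Nat.pair (Nat.pair 0 2) (termCode (powTerm m)))) (formulaCode Ψ))))) :=
      Primrec₂.natPair.comp (Primrec.const _) <| Primrec₂.natPair.comp (Primrec.const _) <|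
      Primrec₂.natPair.comp (Primrec.const _) <| Primrec₂.natPair.comp (Primrec.const _) <|
      Primrec₂.natPair.comp (Primrec₂.natPair.comp (Primrec.const _) <|
        Primrec₂.natPair.comp (Primrec.const _) primrec_powTerm) (Primrec.const _)
    exact this.to_comp
  obtain ⟨f, hf, e⟩ := ComputablePred.computable_iff.1 h
  refine ComputablePred.computable_iff.2 ⟨fun m => f (formulaCode (σ m)), hf.comp hc, ?_⟩
  funext m
  rw [← congrFun e (formulaCode (σ m)), ← hσ]
  apply propext
  constructor
  · exact fun hm => ⟨σ m, rfl, hm⟩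
  · rintro ⟨ψ, h1, h2⟩
    rwa [formulaCode_injective _ _ h1] at h2

end Pool.Agent.P.MP_c4850b_lc
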