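import Mathlib

/-!
Definitions for the statement: the language of groups, a Goedel numbering of its sentences,
the elementary theory of a group, pro-p groups and free pro-p groups.
-/

namespace Pool.Agent.P.MP_c4850b_lc

open FirstOrder

/-- The function symbols `1`, `⁻¹`, `·` (one symbol of each arity 0, 1, 2). -/
inductive GrpFunc : ℕ → Type
  | one : GrpFunc 0
  | inv : GrpFunc 1
  | mul : GrpFunc 2

/-- The first-order language of groups. -/
def grpLang : Language := ⟨GrpFunc, fun _ => Empty⟩

/-- A group as a structure for the language of groups. -/
@[reducible] noncomputable def grpStructure (G : Type) [Group G] : grpLang.Structure G where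
  funMap := fun f => GrpFunc.rec (motive := fun n _ => (Fin n → G) → G)
    (fun _ => 1) (fun v => (v 0)⁻¹) (fun v => v 0 * v 1) f
  RelMap := fun r _ => Empty.elim r

/-- Goedel number of a term: a variable is coded by its index, a compound term by the arity of
its head symbol (which determines the symbol) and the list of codes of its arguments. -/
noncomputable def termCode {n : ℕ} (t : grpLang.Term (Empty ⊕ Fin n)) : ℕ :=
  Language.Term.rec (motive := fun _ => ℕ)
    (fun v => Nat.pair 0 (Sum.elim Empty.elim Fin.val v))
    (fun {l} _ _ c => Nat.pair (l + 1) (Encodable.encode (List.ofFn c))) t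

/-- Goedel number of a formula (cases: falsum, equation, relation (none), implication,
universal quantifier). -/
noncomputable def formulaCode {n : ℕ} (φ : grpLang.BoundedFormula Empty n) : ℕ :=
  Language.BoundedFormula.rec (motive := fun _ _ => ℕ)
    (Nat.pair 0 0)
    (fun s t => Nat.pair 1 (Nat.pair (termCode s) (termCode t)))
    (fun r _ => Empty.elim r)
    (fun _ _ c d => Nat.pair 2 (Nat.pair c d))
    (fun _ c => Nat.pair 3 c) φ

/-- The elementary theory of the abstract group `G`, as the set of Goedel numbers of the
sentences true in `G`. -/
def theoryCodes (G : Type) [Group G] : Set ℕ :=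
  {n | ∃ φ : grpLang.Sentence, formulaCode φ = n ∧ @Language.Sentence.Realize _ G (grpStructure G) φ}

/-- Pro-`p` group: a compact Hausdorff totally disconnected topological group all of whose
quotients by open normal subgroups are `p`-groups. -/
def IsProP (p : ℕ) (G : Type) [Group G] [TopologicalSpace G] : Prop :=
  IsTopologicalGroup G ∧ CompactSpace G ∧ T2Space G ∧ TotallyDisconnectedSpace G ∧
    ∀ (U : Subgroup G) [U.Normal], IsOpen (U : Set G) → IsPGroup p (G ⧸ U)

/-- `ι : X → F` exhibits `F` as the free pro-`p` group on the set `X` (converging to `1`). -/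
def IsFreeProP (p : ℕ) {X F : Type} [Group F] [TopologicalSpace F] (ι : X → F) : Prop :=
  IsProP p F ∧ Filter.Tendsto ι Filter.cofinite (nhds 1) ∧
    ∀ (G : Type) [Group G] [TopologicalSpace G], IsProP p G →
      ∀ f : X → G, Filter.Tendsto f Filter.cofinite (nhds 1) →
        ∃! φ : F →ₜ* G, ∀ i, φ (ι i) = f i

end Pool.Agent.P.MP_c4850b_lc
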