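import Mathlib

/-!
The finite `p`-group lemmas behind the coding of finite sets.
-/

namespace Pool.Agent.P.MP_c4850b_lc

open Subgroup
open scoped commutatorElement IsMulCommutative

/-- the operator `X - 1 - e Z` -/
def psi {G : Type} [Group G] (e : ℕ) (x z h : G) : G :=
  x * h * x⁻¹ * h⁻¹ * ((z * h * z⁻¹) ^ e)⁻¹

/-- the element coding the finite set listed by `l` -/
def gS {G : Type} [Group G] (e : ℕ) (x y : G) : List ℕ → G
  | [] => y
  | ν :: l => psi e x (x ^ ν) (gS e x y l)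

lemma map_psi {G H : Type} [Group G] [Group H] (f : G →* H) (e : ℕ) (x z h : G) :
    f (psi e x z h) = psi e (f x) (f z) (f h) := by
  simp [psi]

lemma map_gS {G H : Type} [Group G] [Group H] (f : G →* H) (e : ℕ) (x y : G) (l : List ℕ) :
    f (gS e x y l) = gS e (f x) (f y) l := by
  induction l with
  | nil => rfl
  | cons ν l ih => simp only [gS, map_psi, map_pow, ih]

lemma psi_mem {G : Type} [Group G] {V : Subgroup G} [hV : V.Normal] (e : ℕ) (x z : G) {h : G}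
    (hh : h ∈ V) : psi e x z h ∈ V :=
  mul_mem (mul_mem (hV.conj_mem h hh x) (inv_mem hh)) (inv_mem (pow_mem (hV.conj_mem h hh z) e))

lemma gS_mem {G : Type} [Group G] {V : Subgroup G} [V.Normal] (e : ℕ) (x : G) {y : G}
    (hy : y ∈ V) (l : List ℕ) : gS e x y l ∈ V := by
  induction l with
  | nil => exact hy
  | cons ν l ih => exact psi_mem e x _ ih

lemma nakayama {A : Type} [CommGroup A] [Finite A] {p e : ℕ} (hA : IsPGroup p A) (he : p ∣ e)
    (σ τ : A →* A) (B : Subgroup A)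
    (gen : ∀ W : Subgroup A, B ≤ W → (∀ a ∈ W, σ a ∈ W) → W = ⊤) (v : A) :
    ∃ a, ∃ β ∈ B, v = σ a * a⁻¹ * ((τ a) ^ e)⁻¹ * β := by
  let ψ : A →* A := σ * (MonoidHom.id A)⁻¹ * (τ ^ e)⁻¹
  have hψ : ∀ a, ψ a = σ a * a⁻¹ * ((τ a) ^ e)⁻¹ := fun a => rfl
  let M : Subgroup A := ψ.range ⊔ B
  have hW : M ⊔ (powMonoidHom p : A →* A).range = ⊤ := by
    apply gen
    · exact le_sup_of_le_left le_sup_right
    · intro a ha
      obtain ⟨k, rfl⟩ := he
      have : σ a = ψ a * a * ((τ a) ^ k) ^ p := by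
        rw [hψ, ← pow_mul, mul_comm k p, mul_assoc, mul_assoc, mul_comm a, mul_assoc,
          inv_mul_cancel_left, inv_mul_cancel, mul_one]
      rw [this]
      exact mul_mem (mul_mem (mem_sup_left (mem_sup_left ⟨a, rfl⟩)) ha) (mem_sup_right ⟨_, rfl⟩)
  have key : ∀ j : ℕ, ∀ v : A, ∃ m ∈ M, ∃ u, v = m * u ^ p ^ j := by
    intro j
    induction j with
    | zero => exact fun v => ⟨1, one_mem _, v, by simp⟩
    | succ j ih =>
      intro v
      obtain ⟨m, hm, u, rfl⟩ := ih v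
      obtain ⟨m', hm', _, ⟨u', rfl⟩, rfl⟩ := Subgroup.mem_sup.1 (hW ▸ mem_top u)
      refine ⟨m * m' ^ p ^ j, mul_mem hm (pow_mem hm' _), u', ?_⟩
      rw [powMonoidHom_apply, mul_pow, ← pow_mul, pow_succ', mul_assoc]
  obtain ⟨j, hj⟩ := isPGroup_iff_exists_pow_pow_eq_one.1 hA
  obtain ⟨m, hm, u, rfl⟩ := key j v
  obtain ⟨_, ⟨a, rfl⟩, β, hβ, rfl⟩ := Subgroup.mem_sup.1 hm
  exact ⟨a, β, hβ, by rw [hj, mul_one, hψ]⟩

variable {P : Type} [Group P]

lemma nakayama' [Finite P] {p e : ℕ} (hP : IsPGroup p P) (he : p ∣ e) (x z : P)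
    (V B : Subgroup P) [V.Normal] (hc : ∀ a ∈ V, ∀ b ∈ V, a * b = b * a) (hB : B ≤ V)
    (gen : ∀ W : Subgroup P, B ≤ W → W ≤ V → (∀ a ∈ W, x * a * x⁻¹ ∈ W) → V ≤ W) :
    ∀ v ∈ V, ∃ a ∈ V, ∃ β ∈ B, v = psi e x z a * β := by
  intro v hv
  have : IsMulCommutative V := ⟨⟨fun a b => Subtype.ext (hc a a.2 b b.2)⟩⟩
  obtain ⟨a, β, hβ, h⟩ := nakayama (A := V) (hP.to_subgroup V) he
    (MulAut.conjNormal x).toMonoidHom (MulAut.conjNormal z).toMonoidHom (B.subgroupOf V)
    (fun W h1 h2 => by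
      have := gen (W.map V.subtype) (fun b hb => ⟨⟨b, hB hb⟩, h1 hb, rfl⟩) (map_subtype_le W)
        (by rintro _ ⟨a, ha, rfl⟩; exact ⟨_, h2 a ha, rfl⟩)
      rw [eq_top_iff]
      intro a _
      obtain ⟨b, hb, e⟩ := this a.2
      rwa [← Subtype.ext e]) ⟨v, hv⟩
  exact ⟨a, a.2, β, hβ, congrArg Subtype.val h⟩

lemma normalClosure_le [Finite P] {x y : P} (hxy : closure {x, y} = ⊤) (W : Subgroup P)
    (hy : y ∈ W) (hx : ∀ a ∈ W, x * a * x⁻¹ ∈ W) : normalClosure {y} ≤ W := by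
  have : W.Normal := by
    rw [← normalizer_eq_top_iff, eq_top_iff, ← hxy, closure_le]
    rintro _ (rfl | rfl)
    · exact mem_normalizer_fintype hx
    · exact le_normalizer hy
  exact normalClosure_le_normal (by simpa using hy)

instance lcs_normal (N : Subgroup P) [N.Normal] (c : ℕ) : (N.lowerCentralSeries c).Normal := by
  induction c with
  | zero => assumption
  | succ c ih => rw [Subgroup.lowerCentralSeries_succ]; infer_instance

lemma closure_map_top {Q : Type} [Group Q] (f : P →* Q) (hf : Function.Surjective f) {x y : P}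
    (hxy : closure {x, y} = ⊤) : closure {f x, f y} = ⊤ := by
  rw [← Set.image_pair, ← MonoidHom.map_closure, hxy, map_top_of_surjective f hf]

lemma main_aux {p e : ℕ} (he : p ∣ e) (c : ℕ) : ∀ (P : Type) [Group P] [Finite P], IsPGroup p P →
    ∀ x y z : P, closure {x, y} = ⊤ → (normalClosure {y}).lowerCentralSeries (c + 1) = ⊥ →
    ∀ h₀ ∈ normalClosure {y}, ∀ w ∈ ⁅normalClosure {y}, normalClosure {y}⁆,
      ∃ h ∈ normalClosure {y}, ∃ n ∈ normalClosure {y},
        psi e x z h₀ * w = psi e x z h * ⁅n, y⁆ := by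
  induction c with
  | zero =>
    intro P _ _ _ x y z _ hb h₀ hh w hw
    have : w = 1 := by
      have : w ∈ (normalClosure {y}).lowerCentralSeries (0 + 1) := hw
      rwa [hb] at this
    exact ⟨h₀, hh, 1, one_mem _, by simp [this]⟩
  | succ c ih =>
    intro P _ _ hP x y z hxy hb h₀ hh w hw
    set N : Subgroup P := normalClosure {y} with hN
    set L := N.lowerCentralSeries c with hL
    set K := N.lowerCentralSeries (c + 1) with hK
    have hyN : y ∈ N := subset_normalClosure rfl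
    have hKL : K = ⁅L, N⁆ := rfl
    have hKN : K ≤ N := N.lowerCentralSeries_antitone (Nat.zero_le _)
    have hLN : L ≤ N := N.lowerCentralSeries_antitone (Nat.zero_le _)
    have hcen : ∀ k ∈ K, ∀ n ∈ N, k * n = n * k := by
      intro k hk n hn
      have : ⁅k, n⁆ ∈ N.lowerCentralSeries (c + 1 + 1) := commutator_mem_commutator hk hn
      rw [hb, mem_bot, commutatorElement_eq_one_iff_mul_comm] at this
      exact this
    let π := QuotientGroup.mk' K
    have hπ : Function.Surjective π := QuotientGroup.mk'_surjective K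
    have hNπ : normalClosure {π y} = N.map π :=
      ((map_normalClosure _ _ hπ).trans (by rw [Set.image_singleton])).symm
    obtain ⟨h', hh', n', hn', e1⟩ := ih (P ⧸ K) (hP.to_quotient K) (π x) (π y) (π z)
      (closure_map_top π hπ hxy)
      (by rw [hNπ, ← map_lowerCentralSeries, Subgroup.map_eq_bot_iff, QuotientGroup.ker_mk'])
      (π h₀) (by rw [hNπ]; exact mem_map_of_mem π hh)
      (π w) (by rw [hNπ, ← map_commutator]; exact mem_map_of_mem π hw)
    rw [hNπ] at hh' hn'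
    obtain ⟨h, hh1, rfl⟩ := hh'
    obtain ⟨n, hn1, rfl⟩ := hn'
    rw [← map_psi, ← map_psi, ← map_commutatorElement, ← map_mul, ← map_mul, eq_comm,
      QuotientGroup.mk'_eq_mk'] at e1
    obtain ⟨k, hk, e1⟩ := e1
    let B : Subgroup P :=
      { carrier := {v | ∃ b ∈ L, v = ⁅b, y⁆}
        one_mem' := ⟨1, one_mem _, by simp⟩
        mul_mem' := by
          rintro _ _ ⟨b, hb1, rfl⟩ ⟨b', hb2, rfl⟩
          refine ⟨b' * b, mul_mem hb2 hb1, ?_⟩
          rw [commutatorElement_mul_left_eq_conj_mul,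
            ← hcen _ (commutator_mem_commutator hb1 hyN) _ (hLN hb2), mul_inv_cancel_right]
        inv_mem' := by
          rintro _ ⟨b, hb1, rfl⟩
          refine ⟨b⁻¹, inv_mem hb1, ?_⟩
          have h1 := hcen _ (inv_mem (commutator_mem_commutator hb1 hyN)) _ (hLN hb1)
          have : ⁅b⁻¹, y⁆ = b⁻¹ * (⁅b, y⁆⁻¹ * b) := by
            simp only [commutatorElement_def]; group
          rw [this, h1, inv_mul_cancel_left] }
    obtain ⟨a, ha, _, ⟨b, hb1, rfl⟩, e2⟩ := nakayama' hP he x z K B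
      (fun a ha b hb => hcen a ha b (hKN hb))
      (by rintro _ ⟨b, hb1, rfl⟩; exact commutator_mem_commutator hb1 hyN)
      (fun W h1 _ h3 => by
        let N₁ : Subgroup P :=
          { carrier := {n | n ∈ N ∧ ∀ b ∈ L, ⁅b, n⁆ ∈ W}
            one_mem' := ⟨one_mem _, fun b _ => by simp⟩
            mul_mem' := by
              rintro n n' ⟨hn, h⟩ ⟨hn', h'⟩
              refine ⟨mul_mem hn hn', fun b hb => ?_⟩
              have : ⁅b, n * n'⁆ = ⁅b, n⁆ * (n * ⁅b, n'⁆ * n⁻¹) := by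
                simp only [commutatorElement_def]; group
              rw [this, ← hcen _ (commutator_mem_commutator hb hn') _ hn, mul_inv_cancel_right]
              exact mul_mem (h b hb) (h' b hb)
            inv_mem' := by
              rintro n ⟨hn, h⟩
              refine ⟨inv_mem hn, fun b hb => ?_⟩
              have h1 := hcen _ (inv_mem (commutator_mem_commutator hb hn)) _ hn
              have : ⁅b, n⁻¹⁆ = n⁻¹ * (⁅b, n⁆⁻¹ * n) := by
                simp only [commutatorElement_def]; group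
              rw [this, h1, inv_mul_cancel_left]
              exact inv_mem (h b hb) }
        have hle : N ≤ N₁ := normalClosure_le hxy N₁ ⟨hyN, fun b hb => h1 ⟨b, hb, rfl⟩⟩ (by
          rintro n ⟨hn, h⟩
          refine ⟨(inferInstance : N.Normal).conj_mem n hn x, fun b hb => ?_⟩
          have : ⁅b, x * n * x⁻¹⁆ = x * ⁅x⁻¹ * b * x⁻¹⁻¹, n⁆ * x⁻¹ := by
            simp only [commutatorElement_def]; group
          rw [this]
          exact h3 _ (h _ ((inferInstance : L.Normal).conj_mem b hb x⁻¹)))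
        rw [hKL, commutator_le]
        exact fun b hb n hn => (hle hn).2 b hb) k hk
    refine ⟨h * a, mul_mem hh1 (hKN ha), n * b, mul_mem hn1 (hLN hb1), ?_⟩
    have hKn : K.Normal := inferInstance
    have hNn : N.Normal := inferInstance
    have hby : ⁅b, y⁆ ∈ K := commutator_mem_commutator hb1 hyN
    have e3 : ⁅n * b, y⁆ = ⁅n, y⁆ * ⁅b, y⁆ := by
      rw [commutatorElement_mul_left_eq_conj_mul, ← hcen _ hby _ hn1, mul_inv_cancel_right,
        hcen _ hby _ (commutator_le_left N N (commutator_mem_commutator hn1 hyN))]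
    have e4 : psi e x z (h * a) = psi e x z h * psi e x z a := by
      have ha1 := hKn.conj_mem a ha x
      have ha2 := hKn.conj_mem a ha z
      have hh2 := hNn.conj_mem h hh1 z
      have c1 : Commute (z * h * z⁻¹) (z * a * z⁻¹) := (hcen _ ha2 _ hh2).symm
      have e5 : z * (h * a) * z⁻¹ = (z * h * z⁻¹) * (z * a * z⁻¹) := by group
      have e6 : x * (h * a) * x⁻¹ = (x * h * x⁻¹) * (x * a * x⁻¹) := by group
      rw [psi, psi, psi, e5, e6, c1.mul_pow, mul_inv_rev, mul_inv_rev]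
      generalize z * h * z⁻¹ = hz at *
      generalize z * a * z⁻¹ = az at *
      generalize x * h * x⁻¹ = hx at *
      generalize x * a * x⁻¹ = ax at *
      have hk1 : ax * a⁻¹ ∈ K := mul_mem ha1 (inv_mem ha)
      have hk2 : (az ^ e)⁻¹ ∈ K := inv_mem (pow_mem ha2 e)
      have hn2 : (hz ^ e)⁻¹ ∈ N := inv_mem (pow_mem hh2 e)
      calc hx * ax * (a⁻¹ * h⁻¹) * ((az ^ e)⁻¹ * (hz ^ e)⁻¹)
          = hx * ((ax * a⁻¹) * (h⁻¹ * ((az ^ e)⁻¹ * (hz ^ e)⁻¹))) := by group
        _ = hx * ((h⁻¹ * ((hz ^ e)⁻¹ * (az ^ e)⁻¹)) * (ax * a⁻¹)) := by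
          rw [hcen _ hk2 _ hn2, hcen _ hk1 _ (mul_mem (inv_mem hh1) (mul_mem hn2 (hKN hk2)))]
        _ = hx * h⁻¹ * (hz ^ e)⁻¹ * ((az ^ e)⁻¹ * (ax * a⁻¹)) := by group
        _ = _ := by rw [hcen _ hk2 _ (hKN hk1)]
    rw [← e1, e2, e3, e4, mul_assoc, mul_assoc, ← mul_assoc ⁅n, y⁆, ← mul_assoc (psi e x z a),
      hcen _ (psi_mem e x z ha) _ (commutator_le_left N N (commutator_mem_commutator hn1 hyN))]

lemma main [Finite P] {p e : ℕ} (hp : p.Prime) (hP : IsPGroup p P) (he : p ∣ e) (x y z : P)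
    (hxy : closure {x, y} = ⊤) {h₀ w : P} (hh : h₀ ∈ normalClosure {y})
    (hw : w ∈ ⁅normalClosure {y}, normalClosure {y}⁆) :
    ∃ h ∈ normalClosure {y}, ∃ n ∈ normalClosure {y},
      psi e x z h₀ * w = psi e x z h * ⁅n, y⁆ := by
  have := Fact.mk hp
  obtain ⟨c, hc⟩ := (isNilpotent_iff_lowerCentralSeries (normalClosure {y})).1
    (hP.to_subgroup _).isNilpotent
  refine main_aux he c P hP x y z hxy ?_ h₀ hh w hw
  rw [eq_bot_iff, ← hc]
  exact Subgroup.lowerCentralSeries_antitone _ (Nat.le_succ c)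

/-- every element of the normal closure of `y` has the shape used in the formula -/
lemma shape [Finite P] {p : ℕ} (hp : p.Prime) (hP : IsPGroup p P) (x y : P)
    (hxy : closure {x, y} = ⊤) {g : P} (hg : g ∈ normalClosure {y}) :
    ∃ a b : P, ∃ i : ℤ, g = ⁅x, a⁆ * ⁅b, y⁆ * y ^ i := by
  set N : Subgroup P := normalClosure {y} with hN
  let π := QuotientGroup.mk' ⁅N, N⁆
  have hπ : Function.Surjective π := QuotientGroup.mk'_surjective _
  have hNπ : normalClosure {π y} = N.map π :=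
    ((map_normalClosure _ _ hπ).trans (by rw [Set.image_singleton])).symm
  have := Normal.map (inferInstance : N.Normal) π hπ
  obtain ⟨_, ⟨h₀, hh, rfl⟩, _, ⟨i, rfl⟩, e1⟩ := nakayama' (hP.to_quotient ⁅N, N⁆) (dvd_zero p)
    (π x) (π 1) (N.map π) (zpowers (π y))
    (by
      rintro _ ⟨a, ha, rfl⟩ _ ⟨b, hb, rfl⟩
      rw [← commutatorElement_eq_one_iff_mul_comm, ← map_commutatorElement]
      exact (QuotientGroup.eq_one_iff _).2 (commutator_mem_commutator ha hb))
    (by rw [zpowers_le]; exact mem_map_of_mem π (subset_normalClosure rfl))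
    (fun W h1 _ h3 => hNπ ▸ normalClosure_le (closure_map_top π hπ hxy) W
      (h1 (mem_zpowers _)) h3) (π g) (mem_map_of_mem π hg)
  have e2 : π (psi 0 x 1 h₀) = π (g * (y ^ i)⁻¹) := by
    rw [map_mul, e1, map_psi, map_inv, map_zpow, mul_inv_cancel_right]
  obtain ⟨w, hw, e3⟩ := (QuotientGroup.mk'_eq_mk' _).1 e2
  obtain ⟨h, -, n, -, e4⟩ := main hp hP (dvd_zero p) x y 1 hxy hh hw
  refine ⟨h, n, i, ?_⟩
  rw [← mul_inv_eq_iff_eq_mul, ← e3, e4]
  simp [psi, commutatorElement_def]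

lemma psi_comm_aux {A : Type} [CommGroup A] (σ τ τ' : A →* A) (e : ℕ)
    (h1 : ∀ a, σ (τ a) = τ (σ a)) (h2 : ∀ a, σ (τ' a) = τ' (σ a)) (h3 : ∀ a, τ (τ' a) = τ' (τ a))
    (Ψ : (A →* A) → A → A) (hΨ : ∀ t a, Ψ t a = σ a * a⁻¹ * ((t a) ^ e)⁻¹) (a : A) :
    Ψ τ (Ψ τ' a) = Ψ τ' (Ψ τ a) := by
  simp only [hΨ, map_mul, map_inv, map_pow, h1, h2, h3, mul_inv_rev, inv_inv, mul_pow, inv_pow]
  generalize (τ (σ a) ^ e)⁻¹ = u1
  generalize (τ' (σ a) ^ e)⁻¹ = u2
  generalize (τ' (τ a) ^ e) ^ e = u3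
  generalize τ a ^ e = u4
  generalize τ' a ^ e = u5
  ac_rfl

lemma psi_comm {G : Type} [Group G] (V : Subgroup G) [V.Normal]
    (hc : ∀ a ∈ V, ∀ b ∈ V, a * b = b * a) (e : ℕ) (x : G) (μ ν : ℕ) {h : G} (hh : h ∈ V) :
    psi e x (x ^ μ) (psi e x (x ^ ν) h) = psi e x (x ^ ν) (psi e x (x ^ μ) h) := by
  have : IsMulCommutative V := ⟨⟨fun a b => Subtype.ext (hc a a.2 b b.2)⟩⟩
  let c : G → V →* V := fun g => (MulAut.conjNormal g).toMonoidHom
  have hcc : ∀ (i j : ℕ) (a : V), c (x ^ i) (c (x ^ j) a) = c (x ^ j) (c (x ^ i) a) := by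
    intro i j a
    apply Subtype.ext
    change x ^ i * (x ^ j * a * (x ^ j)⁻¹) * (x ^ i)⁻¹ = x ^ j * (x ^ i * a * (x ^ i)⁻¹) * (x ^ j)⁻¹
    group
  have h1 := fun j a => hcc 1 j a
  simp only [pow_one] at h1
  have key := psi_comm_aux (A := V) (c x) (c (x ^ μ)) (c (x ^ ν)) e (h1 μ) (h1 ν) (hcc μ ν)
    (fun t a => c x a * a⁻¹ * ((t a) ^ e)⁻¹) (fun _ _ => rfl) ⟨h, hh⟩
  exact congrArg Subtype.val key

lemma gS_eq {G : Type} [Group G] (V : Subgroup G) [V.Normal]
    (hc : ∀ a ∈ V, ∀ b ∈ V, a * b = b * a) (e : ℕ) (x : G) {y : G} (hy : y ∈ V) {l : List ℕ}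
    {ν : ℕ} (hν : ν ∈ l) : ∃ h₀ ∈ V, gS e x y l = psi e x (x ^ ν) h₀ := by
  induction l with
  | nil => simp at hν
  | cons μ l ih =>
    rcases List.mem_cons.1 hν with rfl | h
    · exact ⟨_, gS_mem e x hy l, rfl⟩
    · obtain ⟨h₀, hh, e1⟩ := ih h
      exact ⟨_, psi_mem e x (x ^ μ) hh, by rw [gS, e1, psi_comm V hc e x μ ν hh]⟩

lemma gS_complete [Finite P] {p e : ℕ} (hp : p.Prime) (hP : IsPGroup p P) (he : p ∣ e) (x y : P)
    (hxy : closure {x, y} = ⊤) {l : List ℕ} {ν : ℕ} (hν : ν ∈ l) :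
    ∃ h ∈ normalClosure {y}, ∃ n ∈ normalClosure {y},
      gS e x y l = psi e x (x ^ ν) h * ⁅n, y⁆ := by
  set N : Subgroup P := normalClosure {y} with hN
  let π := QuotientGroup.mk' ⁅N, N⁆
  have hπ : Function.Surjective π := QuotientGroup.mk'_surjective _
  have := Normal.map (inferInstance : N.Normal) π hπ
  obtain ⟨_, ⟨h₀, hh, rfl⟩, e1⟩ := gS_eq (N.map π) (by
      rintro _ ⟨a, ha, rfl⟩ _ ⟨b, hb, rfl⟩
      rw [← commutatorElement_eq_one_iff_mul_comm, ← map_commutatorElement]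
      exact (QuotientGroup.eq_one_iff _).2 (commutator_mem_commutator ha hb)) e (π x)
      (mem_map_of_mem π (subset_normalClosure rfl : y ∈ N)) hν
  rw [← map_gS, ← map_pow, ← map_psi, eq_comm] at e1
  obtain ⟨w, hw, e3⟩ := (QuotientGroup.mk'_eq_mk' _).1 e1
  rw [← e3]
  exact main hp hP he x y _ hxy hh hw

/-- the combined finite statement, in an arbitrary finite `p`-group -/
lemma finite_complete {Q : Type} [Group Q] [Finite Q] {p e : ℕ} (hp : p.Prime) (hQ : IsPGroup p Q)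
    (he : p ∣ e) (x y : Q) {l : List ℕ} {ν : ℕ} (hν : ν ∈ l) :
    ∃ a b a' b' : Q, ∃ i i' : ℤ, gS e x y l =
      psi e x (x ^ ν) (⁅x, a⁆ * ⁅b, y⁆ * y ^ i) * ⁅⁅x, a'⁆ * ⁅b', y⁆ * y ^ i', y⁆ := by
  let H : Subgroup Q := closure {x, y}
  let x' : H := ⟨x, subset_closure (by simp)⟩
  let y' : H := ⟨y, subset_closure (by simp)⟩
  have hxy : closure {x', y'} = ⊤ := by
    rw [← closure_preimage_eq_top {x, y}]
    congr 1
    ext g
    simp [x', y', Subtype.ext_iff]
  obtain ⟨h, hh, n, hn, e1⟩ := gS_complete hp (hQ.to_subgroup H) he x' y' hxy hν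
  obtain ⟨a, b, i, rfl⟩ := shape hp (hQ.to_subgroup H) x' y' hxy hh
  obtain ⟨a', b', i', rfl⟩ := shape hp (hQ.to_subgroup H) x' y' hxy hn
  refine ⟨a, b, a', b', i, i', ?_⟩
  have := congrArg H.subtype e1
  simp only [map_gS, map_psi, map_mul, map_pow, map_zpow, map_commutatorElement] at this
  exact this

end Pool.Agent.P.MP_c4850b_lc
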