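import Pool.Agent.P.MP_c4850b_lc.Finite

/-!
Two families of finite `p`-groups used as test quotients.
-/

namespace Pool.Agent.P.MP_c4850b_lc

open scoped commutatorElement

/-- affine maps `t ↦ a + u t` with `u` in a group of units -/
@[ext] structure Aff (R : Type) [CommRing R] (S : Subgroup Rˣ) : Type where
  a : R
  u : S

namespace Aff

variable {R : Type} [CommRing R] {S : Subgroup Rˣ}

instance : Mul (Aff R S) := ⟨fun g h => ⟨g.a + (g.u : Rˣ) * h.a, g.u * h.u⟩⟩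
instance : One (Aff R S) := ⟨⟨0, 1⟩⟩
instance : Inv (Aff R S) := ⟨fun g => ⟨-(((g.u⁻¹ : S) : Rˣ) * g.a), g.u⁻¹⟩⟩

@[simp] lemma mul_a (g h : Aff R S) : (g * h).a = g.a + (g.u : Rˣ) * h.a := rfl
@[simp] lemma mul_u (g h : Aff R S) : (g * h).u = g.u * h.u := rfl
@[simp] lemma one_a : (1 : Aff R S).a = 0 := rfl
@[simp] lemma one_u : (1 : Aff R S).u = 1 := rfl
@[simp] lemma inv_a (g : Aff R S) : g⁻¹.a = -(((g.u⁻¹ : S) : Rˣ) * g.a) := rfl
@[simp] lemma inv_u (g : Aff R S) : g⁻¹.u = g.u⁻¹ := rfl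

instance : Group (Aff R S) := Group.ofLeftAxioms
  (fun a b c => by ext <;> simp [mul_add, mul_assoc, add_assoc])
  (fun a => by ext <;> simp)
  (fun a => by ext <;> simp)

instance [Finite R] : Finite (Aff R S) :=
  Finite.of_injective (fun g : Aff R S => (g.a, g.u))
    (fun _ _ h => Aff.ext (congrArg Prod.fst h) (congrArg Prod.snd h))

/-- the linear part -/
def uHom : Aff R S →* S := ⟨⟨Aff.u, rfl⟩, fun _ _ => rfl⟩

lemma pow_u (g : Aff R S) (n : ℕ) : (g ^ n).u = g.u ^ n := map_pow uHom g n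

lemma pow_a {g : Aff R S} (hg : g.u = 1) (n : ℕ) : (g ^ n).a = n * g.a := by
  induction n with
  | zero => simp
  | succ n ih => rw [pow_succ, mul_a, ih, pow_u, hg]; push_cast; simp [add_mul]

lemma isPGroup {p k : ℕ} (hS : IsPGroup p S) (hR : ((p ^ k : ℕ) : R) = 0) :
    IsPGroup p (Aff R S) := by
  intro g
  obtain ⟨j, hj⟩ := hS g.u
  refine ⟨j + k, ?_⟩
  have h1 : (g ^ p ^ j).u = 1 := by rw [pow_u, hj]
  rw [pow_add, pow_mul]
  ext
  · rw [pow_a h1, hR, zero_mul, one_a]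
  · rw [pow_u, h1, one_pow, one_u]

lemma conj_a (w : Aff R S) {g : Aff R S} (hg : g.u = 1) :
    (w * g * w⁻¹).a = (w.u : Rˣ) * g.a := by
  simp [hg]

lemma psi_u (e : ℕ) (x z : Aff R S) {g : Aff R S} (hg : g.u = 1) : (psi e x z g).u = 1 := by
  simp [psi, pow_u, hg]

lemma psi_a (e : ℕ) (x z : Aff R S) {g : Aff R S} (hg : g.u = 1) :
    (psi e x z g).a = ((x.u : Rˣ) - 1 - e * (z.u : Rˣ)) * g.a := by
  have h1 : (z * g * z⁻¹).u = 1 := by simp [hg]
  have h2 : (x * g * x⁻¹).u = 1 := by simp [hg]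
  rw [psi, mul_a, mul_a, inv_a, inv_a, pow_a h1, conj_a _ hg, conj_a _ hg, pow_u, h1,
    mul_u (x * g * x⁻¹), h2, inv_u, hg]
  simp
  ring

lemma gS_u (e : ℕ) (x : Aff R S) {y : Aff R S} (hy : y.u = 1) (l : List ℕ) :
    (gS e x y l).u = 1 := by
  induction l with
  | nil => exact hy
  | cons ν l ih => exact psi_u _ _ _ ih

lemma gS_a (e : ℕ) (x : Aff R S) {y : Aff R S} (hy : y.u = 1) (l : List ℕ) :
    (gS e x y l).a =
      (l.map fun ν => ((x.u : Rˣ) : R) - 1 - e * ((x.u : Rˣ) : R) ^ ν).prod * y.a := by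
  induction l with
  | nil => simp [gS]
  | cons ν l ih =>
    rw [gS, psi_a _ _ _ (gS_u e x hy l), ih, pow_u, List.map_cons, List.prod_cons, mul_assoc]
    simp

lemma comm_u (g h : Aff R S) : (⁅g, h⁆ : Aff R S).u = 1 := by
  ext
  simp [commutatorElement_def]

lemma u_eq_one_of_comm {c y : Aff R S} (hy : y.a = 1) (hy' : y.u = 1) (h : c * y = y * c) :
    c.u = 1 := by
  have := congrArg Aff.a h
  rw [mul_a, mul_a, hy, hy'] at this
  apply Subtype.ext
  apply Units.ext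
  simp only [mul_one, OneMemClass.coe_one, Units.val_one, one_mul] at this ⊢
  linear_combination this

lemma comm_eq_one {g h : Aff R S} (hg : g.u = 1) (hh : h.u = 1) : ⁅g, h⁆ = 1 := by
  rw [commutatorElement_eq_one_iff_mul_comm]
  ext <;> simp [hg, hh, add_comm]

end Aff

/-- a cocycle of an action with values in a module -/
structure Coc (P Ω T : Type) [Group P] [MulAction P Ω] [AddCommGroup T] : Type where
  a : P → Ω → T
  mul : ∀ g h ω, a (g * h) ω = a g (h • ω) + a h ω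

/-- a Heisenberg-type extension attached to a cocycle -/
@[ext] structure Hw {P Ω T : Type} [Group P] [MulAction P Ω] [AddCommGroup T] (C : Coc P Ω T)
    (B : Type) : Type where
  π : P
  b : B
  c : Ω → T

namespace Hw

variable {P Ω T B : Type} [Group P] [MulAction P Ω] [AddCommGroup T] {C : Coc P Ω T}
  [CommRing B] [Module B T]

lemma a_one (C : Coc P Ω T) (ω : Ω) : C.a 1 ω = 0 := by
  have := C.mul 1 1 ω
  simpa using this

instance : Mul (Hw C B) :=
  ⟨fun g h => ⟨g.π * h.π, g.b + h.b, fun ω => g.c (h.π • ω) + h.c ω + h.b • C.a g.π (h.π • ω)⟩⟩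
instance : One (Hw C B) := ⟨⟨1, 0, 0⟩⟩
instance : Inv (Hw C B) :=
  ⟨fun g => ⟨g.π⁻¹, -g.b, fun ω => -g.c (g.π⁻¹ • ω) - g.b • C.a g.π⁻¹ ω⟩⟩

@[simp] lemma mul_π (g h : Hw C B) : (g * h).π = g.π * h.π := rfl
@[simp] lemma mul_b (g h : Hw C B) : (g * h).b = g.b + h.b := rfl
@[simp] lemma mul_c (g h : Hw C B) (ω : Ω) :
    (g * h).c ω = g.c (h.π • ω) + h.c ω + h.b • C.a g.π (h.π • ω) := rfl
omit [Module B T] in
@[simp] lemma one_π : (1 : Hw C B).π = 1 := rfl
omit [Module B T] in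
@[simp] lemma one_b : (1 : Hw C B).b = 0 := rfl
omit [Module B T] in
@[simp] lemma one_c (ω : Ω) : (1 : Hw C B).c ω = 0 := rfl
@[simp] lemma inv_π (g : Hw C B) : g⁻¹.π = g.π⁻¹ := rfl
@[simp] lemma inv_b (g : Hw C B) : g⁻¹.b = -g.b := rfl
@[simp] lemma inv_c (g : Hw C B) (ω : Ω) :
    g⁻¹.c ω = -g.c (g.π⁻¹ • ω) - g.b • C.a g.π⁻¹ ω := rfl

instance : Group (Hw C B) := Group.ofLeftAxioms
  (fun a b c => by
    ext ω
    · simp [mul_assoc]
    · simp [add_assoc]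
    · simp only [mul_c, mul_π, mul_b, C.mul, mul_smul, smul_add, add_smul]
      abel)
  (fun a => by ext <;> simp [a_one])
  (fun a => by
    ext
    · simp
    · simp
    · simp only [mul_c, inv_c, inv_smul_smul, inv_π, one_c]
      abel)

instance [Finite P] [Finite Ω] [Finite T] [Finite B] : Finite (Hw C B) :=
  Finite.of_injective (fun g : Hw C B => (g.π, g.b, g.c))
    (fun _ _ h => Hw.ext (congrArg Prod.fst h) (congrArg (·.2.1) h) (congrArg (·.2.2) h))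

/-- projection to the acting group -/
def πHom : Hw C B →* P := ⟨⟨Hw.π, rfl⟩, fun _ _ => rfl⟩

/-- projection to the scalar part -/
def bHom : Hw C B →* Multiplicative B := ⟨⟨fun g => Multiplicative.ofAdd g.b, rfl⟩, fun _ _ => rfl⟩

lemma pow_π (g : Hw C B) (n : ℕ) : (g ^ n).π = g.π ^ n := map_pow πHom g n

lemma pow_b (g : Hw C B) (n : ℕ) : (g ^ n).b = n * g.b := by
  induction n with
  | zero => simp
  | succ n ih => rw [pow_succ, mul_b, ih]; push_cast; ring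

lemma pow_c {g : Hw C B} (h1 : g.π = 1) (h2 : g.b = 0) (n : ℕ) (ω : Ω) :
    (g ^ n).c ω = (n : B) • g.c ω := by
  induction n with
  | zero => simp
  | succ n ih => rw [pow_succ, mul_c, h1, h2, one_smul, ih]; simp [add_smul]

lemma isPGroup {p k : ℕ} (hP : IsPGroup p P) (hB : ((p ^ k : ℕ) : B) = 0) :
    IsPGroup p (Hw C B) := by
  intro g
  obtain ⟨j, hj⟩ := hP g.π
  refine ⟨j + k + k, ?_⟩
  have h1 : (g ^ p ^ (j + k)).π = 1 := by rw [pow_π, pow_add, pow_mul, hj, one_pow]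
  have h2 : (g ^ p ^ (j + k)).b = 0 := by rw [pow_b, pow_add, Nat.cast_mul, hB]; simp
  rw [pow_add, pow_mul]
  ext ω
  · rw [pow_π, h1, one_pow, one_π]
  · rw [pow_b, h2, mul_zero, one_b]
  · rw [pow_c h1 h2, hB, zero_smul, one_c]

lemma comm_rel {g h : Hw C B} (e : g * h = h * g) {ω : Ω} (hg : g.π • ω = ω) (hh : h.π • ω = ω) :
    h.b • C.a g.π ω = g.b • C.a h.π ω := by
  have := congrArg (fun k : Hw C B => k.c ω) e
  simp only [mul_c, hg, hh] at this
  rw [add_comm (g.c ω)] at this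
  exact add_left_cancel this

end Hw

/-- the cocycle induced from a homomorphism on a subgroup -/
noncomputable def indCoc {P T : Type} [Group P] [AddCommGroup T] (H : Subgroup P)
    (τ : H →* Multiplicative T) : Coc P (P ⧸ H) T where
  a g ω := Multiplicative.toAdd (τ ⟨(g • ω).out⁻¹ * (g * ω.out), by
    rw [← QuotientGroup.eq, QuotientGroup.out_eq', ← smul_eq_mul, ← MulAction.Quotient.smul_mk,
      QuotientGroup.out_eq']⟩)
  mul g h ω := by
    rw [← toAdd_mul, ← map_mul]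
    congr 2
    ext
    simp [mul_smul, mul_assoc]

lemma indCoc_base {P T : Type} [Group P] [AddCommGroup T] (H : Subgroup P)
    (τ : H →* Multiplicative T) (g : H) :
    (g : P) • ((1 : P) : P ⧸ H) = ((1 : P) : P ⧸ H) ∧
      (indCoc H τ).a g ((1 : P) : P ⧸ H) = Multiplicative.toAdd (τ g) := by
  have h1 : (g : P) • ((1 : P) : P ⧸ H) = ((1 : P) : P ⧸ H) := by
    rw [MulAction.Quotient.smul_mk, QuotientGroup.eq]
    simp
  refine ⟨h1, ?_⟩
  have hs : ((1 : P) : P ⧸ H).out ∈ H := by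
    have := QuotientGroup.eq.1 (QuotientGroup.out_eq' ((1 : P) : P ⧸ H)).symm
    simpa using this
  have : τ g = τ (⟨_, hs⟩⁻¹ * (g * ⟨_, hs⟩)) := by
    rw [map_mul, map_mul, map_inv, mul_comm (τ g), inv_mul_cancel_left]
  rw [this]
  simp only [indCoc, h1]
  rfl

lemma exists_fixed (p m k : ℕ) : ∃ a : ℤ, (p : ℤ) ^ k ∣ (1 + p ^ 2 * a) ^ m - a := by
  induction k with
  | zero => exact ⟨0, by simp⟩
  | succ k ih =>
    obtain ⟨a, ha⟩ := ih
    refine ⟨(1 + p ^ 2 * a) ^ m, dvd_trans ?_ (sub_dvd_pow_sub_pow _ _ m)⟩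
    have : 1 + (p : ℤ) ^ 2 * (1 + p ^ 2 * a) ^ m - (1 + p ^ 2 * a) =
        p * ((1 + p ^ 2 * a) ^ m - a) * p := by ring
    rw [this, pow_succ']
    exact Dvd.dvd.mul_right (mul_dvd_mul_left _ ha) _

lemma not_dvd_prod {p : ℤ} (hp : Prime p) (J : ℕ) (l : List ℤ) (h : ∀ c ∈ l, ¬ p ^ J ∣ c) :
    ¬ p ^ (J * l.length + 1) ∣ l.prod := by
  induction l with
  | nil => simpa using hp.not_dvd_one
  | cons c l ih =>
    have h1 := emultiplicity_lt_iff_not_dvd.2 (h c (by simp))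
    have h2 := emultiplicity_lt_iff_not_dvd.2 (ih fun c hc => h c (by simp [hc]))
    rw [← emultiplicity_lt_iff_not_dvd, List.prod_cons, emultiplicity_mul hp]
    have := ENat.add_lt_add h1 h2
    rwa [← Nat.cast_add, show J + (J * l.length + 1) = J * (c :: l).length + 1 by
      simp; ring] at this

/-- the arithmetic input for soundness -/
lemma exists_unit {p : ℕ} (hp : p.Prime) (j n m : ℕ) (l : List ℕ)
    (hn : (j + 4) * l.length + j + 4 ≤ n) (hl : ∀ ν ∈ l, ¬ m ≡ ν [MOD p ^ j]) :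
    ∃ u : (ZMod (p ^ (n + 2)))ˣ, u ^ p ^ n = 1 ∧
      (u : ZMod (p ^ (n + 2))) - 1 - (p ^ 2 : ℕ) * (u : ZMod (p ^ (n + 2))) ^ m = 0 ∧
      (l.map fun ν => (u : ZMod (p ^ (n + 2))) - 1 - (p ^ 2 : ℕ) * (u : ZMod (p ^ (n + 2))) ^ ν).prod
        ≠ 0 := by
  obtain ⟨a, ha⟩ := exists_fixed p m (n + 2)
  have hpa : ¬ (p : ℤ) ∣ a := by
    intro h
    have h1 : (p : ℤ) ∣ (1 + p ^ 2 * a) ^ m - a := dvd_trans (dvd_pow_self _ (by omega)) ha
    have h2 : (p : ℤ) ∣ (1 + p ^ 2 * a) ^ m - 1 ^ m :=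
      dvd_trans ⟨p * a, by ring⟩ (sub_dvd_pow_sub_pow _ _ m)
    have h3 : (p : ℤ) ∣ 1 := by
      have := dvd_sub (dvd_add h1 h) h2
      simpa using this
    exact (Nat.prime_iff_prime_int.1 hp).not_dvd_one h3
  have hord : ∀ n, orderOf (1 + p ^ 2 * a : ZMod (p ^ (n + 2))) = p ^ n :=
    ZMod.orderOf_one_add_mul_prime_pow hp 2 two_ne_zero (by have := hp.two_le; omega) a hpa
  have hfin : ∀ n, IsOfFinOrder (1 + p ^ 2 * a : ZMod (p ^ (n + 2))) := fun n =>
    orderOf_pos_iff.1 (by rw [hord]; exact pow_pos hp.pos n)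
  refine ⟨(hfin n).isUnit.unit, ?_, ?_, ?_⟩
  · ext
    rw [Units.val_pow_eq_pow_val, IsUnit.unit_spec, ← hord n, pow_orderOf_eq_one, Units.val_one]
  · rw [IsUnit.unit_spec]
    have := (ZMod.intCast_zmod_eq_zero_iff_dvd _ (p ^ (n + 2))).2 (by exact_mod_cast ha)
    push_cast at this ⊢
    linear_combination (-(p : ZMod (p ^ (n + 2))) ^ 2) * this
  · rw [IsUnit.unit_spec]
    intro h0
    let l' : List ℤ := l.map fun ν => p ^ 2 * a - p ^ 2 * (1 + p ^ 2 * a) ^ ν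
    have h1 : ((l'.prod : ℤ) : ZMod (p ^ (n + 2))) = 0 := by
      rw [← h0, Int.cast_list_prod, List.map_map]
      congr 2
      funext ν
      simp
    rw [ZMod.intCast_zmod_eq_zero_iff_dvd] at h1
    refine not_dvd_prod (Nat.prime_iff_prime_int.1 hp) (j + 4) l' ?_
      (dvd_trans (pow_dvd_pow _ (by simp only [l', List.length_map]; omega : _ ≤ n + 2))
        (by exact_mod_cast h1))
    intro c hc hd
    obtain ⟨ν, hν, rfl⟩ := List.mem_map.1 hc
    apply hl ν hν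
    have h2 : (p : ℤ) ^ (j + 4) ∣ p ^ 2 * ((1 + p ^ 2 * a) ^ m - (1 + p ^ 2 * a) ^ ν) := by
      have := dvd_add hd (Dvd.dvd.mul_left (dvd_trans (pow_dvd_pow (p : ℤ)
        (by omega : j + 4 ≤ n + 2)) ha) (p ^ 2))
      rwa [show (p : ℤ) ^ 2 * a - p ^ 2 * (1 + p ^ 2 * a) ^ ν + p ^ 2 * ((1 + p ^ 2 * a) ^ m - a) =
        p ^ 2 * ((1 + p ^ 2 * a) ^ m - (1 + p ^ 2 * a) ^ ν) by ring] at this
    have h3 : (p : ℤ) ^ (j + 2) ∣ (1 + p ^ 2 * a) ^ m - (1 + p ^ 2 * a) ^ ν := by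
      rw [show j + 4 = 2 + (j + 2) by ring, pow_add] at h2
      exact (mul_dvd_mul_iff_left (pow_ne_zero 2 (by exact_mod_cast hp.ne_zero))).1 h2
    have h4 := (ZMod.intCast_zmod_eq_zero_iff_dvd _ (p ^ (j + 2))).2 (by exact_mod_cast h3)
    push_cast at h4
    rw [sub_eq_zero, (hfin j).pow_eq_pow_iff_modEq, hord] at h4
    exact h4

end Pool.Agent.P.MP_c4850b_lc
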