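import Pool.Agent.P.MP_c4850b_lc.Groups
import Pool.Agent.P.MP_c4850b_lc.Defs

/-!
Coding of finite sets of powers of a basis element in a free pro-`p` group.
-/

namespace Pool.Agent.P.MP_c4850b_lc

open scoped commutatorElement IsMulCommutative
open Filter Topology

variable {p : ℕ} {X F : Type} [Group F] [TopologicalSpace F] {ι : X → F}

lemma isProP_finite {Q : Type} [Group Q] [Finite Q] [TopologicalSpace Q] [DiscreteTopology Q]
    (hQ : IsPGroup p Q) : IsProP p Q :=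
  ⟨inferInstance, inferInstance, inferInstance, inferInstance, fun U _ _ => hQ.to_quotient U⟩

lemma IsFreeProP.lift (h : IsFreeProP p ι) {Q : Type} [Group Q] [Finite Q] (hQ : IsPGroup p Q)
    (f : X → Q) (hf : {i | f i ≠ 1}.Finite) :
    ∃ φ : F →* Q, IsOpen (φ.ker : Set F) ∧ ∀ i, φ (ι i) = f i := by
  let _ : TopologicalSpace Q := ⊥
  have : DiscreteTopology Q := ⟨rfl⟩
  obtain ⟨φ, hφ, -⟩ := h.2.2 Q (isProP_finite hQ) f
    (by rw [nhds_discrete, tendsto_pure]; exact hf)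
  exact ⟨φ.toMonoidHom, (isOpen_discrete {1}).preimage φ.continuous_toFun, hφ⟩

lemma IsFreeProP.fin (h : IsFreeProP p ι) (U : Subgroup F) (hU : IsOpen (U : Set F)) :
    {i | ι i ∉ U}.Finite :=
  h.2.1 (hU.mem_nhds U.one_mem)

lemma IsFreeProP.uniq (h : IsFreeProP p ι) {Q : Type} [Group Q] [Finite Q] (hQ : IsPGroup p Q)
    {φ ψ : F →* Q} (hφ : IsOpen (φ.ker : Set F)) (hψ : IsOpen (ψ.ker : Set F))
    (e : ∀ i, φ (ι i) = ψ (ι i)) : φ = ψ := by
  let _ : TopologicalSpace Q := ⊥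
  have : DiscreteTopology Q := ⟨rfl⟩
  have := h.1.1
  have cont : ∀ φ : F →* Q, IsOpen (φ.ker : Set F) → Continuous φ := fun φ hφ =>
    continuous_of_continuousAt_one φ (by
      rw [ContinuousAt, map_one, nhds_discrete Q, tendsto_pure]
      exact hφ.mem_nhds φ.ker.one_mem)
  have := (h.2.2 Q (isProP_finite hQ) (fun i => ψ (ι i))
    (by rw [nhds_discrete, tendsto_pure]; exact h.fin _ hψ)).unique
    (y₁ := ⟨φ, cont φ hφ⟩) (y₂ := ⟨ψ, cont ψ hψ⟩) e (fun _ => rfl)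
  exact congrArg ContinuousMonoidHom.toMonoidHom this

lemma IsProP.mem_of_forall (h : IsProP p F) {C : Set F} (hC : IsClosed C) {g : F}
    (hg : ∀ (U : Subgroup F) [U.Normal], IsOpen (U : Set F) → ∃ c ∈ C, g⁻¹ * c ∈ U) : g ∈ C := by
  obtain ⟨_, _, _, _, -⟩ := h
  by_contra hgC
  obtain ⟨U, hU⟩ := ProfiniteGrp.exist_openNormalSubgroup_sub_open_nhds_of_one
    (U := (fun u => g * u) ⁻¹' Cᶜ) (hC.isOpen_compl.preimage (continuous_const_mul g))
    (by simpa using hgC)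
  obtain ⟨c, hc, hc'⟩ := hg U.toSubgroup U.isOpen
  exact hU hc' (by simpa using hc)

lemma IsProP.finite (h : IsProP p F) (U : Subgroup F) (hU : IsOpen (U : Set F)) :
    Finite (F ⧸ U) := by
  obtain ⟨_, _, -⟩ := h
  exact U.quotient_finite_of_isOpen hU

/-- a definable set containing the closed normal closure of `y` in the group generated by `x, y` -/
def NS {G : Type} [Group G] (x y h : G) : Prop :=
  ∃ a b c : G, c * y = y * c ∧ h = ⁅x, a⁆ * ⁅b, y⁆ * c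

/-- the membership relation: `z` belongs to the set coded by `g` -/
def RR {G : Type} [Group G] (e : ℕ) (x y g z : G) : Prop :=
  ∃ h n : G, NS x y h ∧ NS x y n ∧ g = psi e x z h * ⁅n, y⁆

lemma IsProP.isClosed_RR (h : IsProP p F) (e : ℕ) (x y : F) :
    IsClosed {w : F × F | RR e x y w.1 w.2} := by
  obtain ⟨_, _, _, _, -⟩ := h
  have hN : IsCompact {h | NS x y h} := by
    have : {h | NS x y h} = (fun w : F × F × F => ⁅x, w.1⁆ * ⁅w.2.1, y⁆ * w.2.2) ''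
        {w | w.2.2 * y = y * w.2.2} := by
      ext h
      exact ⟨fun ⟨a, b, c, h1, h2⟩ => ⟨(a, b, c), h1, h2.symm⟩,
        fun ⟨⟨a, b, c⟩, h1, h2⟩ => ⟨a, b, c, h1, h2.symm⟩⟩
    rw [this]
    refine (isClosed_eq (by fun_prop) (by fun_prop)).isCompact.image ?_
    simp only [commutatorElement_def]
    fun_prop
  have : {w : F × F | RR e x y w.1 w.2} =
      (fun w : (F × F) × F => (psi e x w.2 w.1.1 * ⁅w.1.2, y⁆, w.2)) ''
        (({h | NS x y h} ×ˢ {h | NS x y h}) ×ˢ Set.univ) := by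
    ext ⟨g, z⟩
    exact ⟨fun ⟨h, n, h1, h2, h3⟩ => ⟨((h, n), z), ⟨⟨h1, h2⟩, trivial⟩, Prod.ext h3.symm rfl⟩,
      fun ⟨⟨⟨h, n⟩, z'⟩, ⟨⟨h1, h2⟩, _⟩, h3⟩ => by
        obtain ⟨rfl, rfl⟩ := Prod.ext_iff.1 h3
        exact ⟨h, n, h1, h2, rfl⟩⟩
  rw [this]
  refine (((hN.prod hN).prod isCompact_univ).image ?_).isClosed
  simp only [commutatorElement_def, psi]
  fun_prop

lemma IsProP.RR_complete (h : IsProP p F) (hp : p.Prime) {e : ℕ} (he : p ∣ e) (x y : F)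
    {l : List ℕ} {ν : ℕ} (hν : ν ∈ l) : RR e x y (gS e x y l) (x ^ ν) := by
  refine h.mem_of_forall (C := {g | RR e x y g (x ^ ν)})
    ((h.isClosed_RR e x y).preimage (f := fun g => (g, x ^ ν)) (by fun_prop)) fun U _ hU => ?_
  have := h.finite U hU
  let π := QuotientGroup.mk' U
  obtain ⟨a, b, a', b', i, i', e1⟩ := finite_complete hp (h.2.2.2.2 U hU) he (π x) (π y) hν
  obtain ⟨a, rfl⟩ := QuotientGroup.mk'_surjective U a
  obtain ⟨b, rfl⟩ := QuotientGroup.mk'_surjective U b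
  obtain ⟨a', rfl⟩ := QuotientGroup.mk'_surjective U a'
  obtain ⟨b', rfl⟩ := QuotientGroup.mk'_surjective U b'
  refine ⟨_, ⟨_, _, ⟨a, b, y ^ i, (Commute.refl y).zpow_left i, rfl⟩,
    ⟨a', b', y ^ i', (Commute.refl y).zpow_left i', rfl⟩, rfl⟩, QuotientGroup.eq.1 ?_⟩
  change π _ = π _
  simp only [map_gS, map_psi, map_mul, map_pow, map_zpow, map_commutatorElement]
  exact e1

/-- `z` lies in the closure of the cyclic group generated by `x` -/
def InCl (x z : F) : Prop :=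
  ∀ (U : Subgroup F) [U.Normal], IsOpen (U : Set F) → ∃ m : ℕ, z⁻¹ * x ^ m ∈ U

lemma isPGroup_zmod (k : ℕ) : IsPGroup p (Multiplicative (ZMod (p ^ k))) :=
  IsPGroup.of_card (n := k) (Nat.card_zmod _)

lemma IsFreeProP.exists_chi (h : IsFreeProP p ι) (hp : p.Prime) (i₀ : X) (k : ℕ) :
    ∃ χ : F →* Multiplicative (ZMod (p ^ k)), IsOpen (χ.ker : Set F) ∧
      χ (ι i₀) = Multiplicative.ofAdd 1 := by
  classical
  have : NeZero (p ^ k) := ⟨pow_ne_zero k hp.ne_zero⟩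
  obtain ⟨χ, h1, h2⟩ := h.lift (isPGroup_zmod k)
    (fun i => if i = i₀ then Multiplicative.ofAdd 1 else 1)
    ((Set.finite_singleton i₀).subset fun i hi => by
      by_contra hne
      exact hi (if_neg hne))
  exact ⟨χ, h1, by rw [h2, if_pos rfl]⟩

/-- the centraliser of a basis element is the procyclic group it generates -/
lemma IsFreeProP.inCl (h : IsFreeProP p ι) (hp : p.Prime) (i₀ : X) {z : F}
    (hz : z * ι i₀ = ι i₀ * z) : InCl (ι i₀) z := by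
  intro U _ hU
  have := h.1.finite U hU
  have hP := h.1.2.2.2.2 U hU
  set x := ι i₀ with hx
  let π := QuotientGroup.mk' U
  have hπ : IsOpen (π.ker : Set F) := by rwa [QuotientGroup.ker_mk']
  let H : Subgroup (F ⧸ U) := Subgroup.closure {π x, π z}
  have : IsMulCommutative H := Subgroup.isMulCommutative_closure (by
    rintro _ (rfl | rfl) _ (rfl | rfl)
    · rfl
    · rw [← map_mul, ← hz, map_mul]
    · rw [← map_mul, hz, map_mul]
    · rfl)
  let x' : H := ⟨π x, Subgroup.subset_closure (by simp)⟩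
  let z' : H := ⟨π z, Subgroup.subset_closure (by simp)⟩
  obtain ⟨k, hk⟩ := isPGroup_iff_exists_pow_pow_eq_one.1
    ((hP.to_subgroup H).to_quotient (Subgroup.zpowers x'))
  have : NeZero (p ^ k) := ⟨pow_ne_zero k hp.ne_zero⟩
  let T := Additive (H ⧸ Subgroup.zpowers x')
  let _ : Module (ZMod (p ^ k)) T := AddCommGroup.zmodModule (fun t => hk (Additive.toMul t))
  let τ : H →* Multiplicative T := QuotientGroup.mk' (Subgroup.zpowers x')
  obtain ⟨χ, hχ, hχx⟩ := h.exists_chi hp i₀ k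
  obtain ⟨Φ, hΦ, hΦι⟩ := h.lift (Q := Hw (indCoc H τ) (ZMod (p ^ k)))
    (Hw.isPGroup (k := k) hP (ZMod.natCast_self _))
    (fun i => ⟨π (ι i), Multiplicative.toAdd (χ (ι i)), 0⟩)
    (((h.fin _ hπ).union (h.fin _ hχ)).subset fun i hi => by
      by_contra hne
      simp only [Set.mem_union, Set.mem_ofPred_eq, not_or, not_not, MonoidHom.mem_ker] at hne
      exact hi (Hw.ext hne.1 (congrArg Multiplicative.toAdd hne.2) rfl))
  have open_comp : ∀ {Q : Type} [Group Q] (f : Hw (indCoc H τ) (ZMod (p ^ k)) →* Q),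
      IsOpen ((f.comp Φ).ker : Set F) := fun f =>
    have := h.1.1
    Subgroup.isOpen_mono (fun g hg => by
      rw [MonoidHom.mem_ker] at hg ⊢
      rw [MonoidHom.comp_apply, hg, map_one]) hΦ
  have e1 : Hw.πHom.comp Φ = π := h.uniq hP (open_comp _) hπ fun i => by
    rw [MonoidHom.comp_apply, hΦι]; rfl
  have e2 : Hw.bHom.comp Φ = χ := h.uniq (isPGroup_zmod k) (open_comp _) hχ fun i => by
    rw [MonoidHom.comp_apply, hΦι]; rfl
  have e3 : ∀ g, (Φ g).π = π g := fun g => DFunLike.congr_fun e1 g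
  have e4 : (Φ x).b = 1 := congrArg Multiplicative.toAdd ((DFunLike.congr_fun e2 x).trans hχx)
  have e5 := Hw.comm_rel (g := Φ z) (h := Φ x) (by rw [← map_mul, hz, map_mul])
    (ω := ((1 : F ⧸ U) : (F ⧸ U) ⧸ H)) (by rw [e3]; exact (indCoc_base H τ z').1)
    (by rw [e3]; exact (indCoc_base H τ x').1)
  have e6 : Multiplicative.toAdd (τ x') = 0 :=
    (QuotientGroup.eq_one_iff x').2 (Subgroup.mem_zpowers x')
  rw [e3, e3, e4, one_smul, (indCoc_base H τ z').2, (indCoc_base H τ x').2, e6, smul_zero] at e5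
  have e7 : z' ∈ Subgroup.zpowers x' := (QuotientGroup.eq_one_iff z').1 e5
  obtain ⟨m, hm⟩ := mem_powers_iff_mem_zpowers.2 e7
  refine ⟨m, QuotientGroup.eq.1 ?_⟩
  change π z = π (x ^ m)
  rw [map_pow]
  exact (congrArg Subtype.val hm).symm

lemma IsFreeProP.exists_level (h : IsFreeProP p ι) (i₀ : X) {z : F}
    (l : List ℕ) (hl : ∀ ν ∈ l, z ≠ ι i₀ ^ ν) :
    ∃ (U : Subgroup F) (_ : U.Normal) (j : ℕ), IsOpen (U : Set F) ∧
      ∀ m : ℕ, z⁻¹ * ι i₀ ^ m ∈ U → ∀ ν ∈ l, ¬ m ≡ ν [MOD p ^ j] := by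
  obtain ⟨_, _, _, _, hpp⟩ := h.1
  obtain ⟨U, hU⟩ := ProfiniteGrp.exist_openNormalSubgroup_sub_open_nhds_of_one
    (U := ((fun ν => z⁻¹ * ι i₀ ^ ν) '' {ν | ν ∈ l})ᶜ)
    (((List.finite_toSet l).image _).isClosed.isOpen_compl)
    (by
      rintro ⟨ν, hν, e⟩
      exact hl ν hν (inv_mul_eq_one.1 e))
  obtain ⟨j, hj⟩ := hpp U.toSubgroup U.isOpen (ι i₀ : F ⧸ U.toSubgroup)
  refine ⟨U.toSubgroup, inferInstance, j, U.isOpen, fun m hm ν hν hmod => ?_⟩
  refine hU (?_ : z⁻¹ * ι i₀ ^ ν ∈ U.toSubgroup) ⟨ν, hν, rfl⟩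
  rw [← QuotientGroup.eq] at hm ⊢
  rw [hm, QuotientGroup.mk_pow, QuotientGroup.mk_pow, pow_eq_pow_iff_modEq]
  exact hmod.of_dvd (orderOf_dvd_of_pow_eq_one hj)

lemma IsFreeProP.RR_sound (h : IsFreeProP p ι) (hp : p.Prime) {i₀ i₁ : X} (hi : i₀ ≠ i₁) {z : F}
    (hz : InCl (ι i₀) z) (l : List ℕ) (hl : ∀ ν ∈ l, z ≠ ι i₀ ^ ν) :
    ¬ RR (p ^ 2) (ι i₀) (ι i₁) (gS (p ^ 2) (ι i₀) (ι i₁) l) z := by
  classical
  have := h.1.1
  obtain ⟨U, _, j, hU, hj⟩ := h.exists_level i₀ l hl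
  set n := (j + 4) * l.length + j + 4 with hn
  have : NeZero (p ^ (n + 2)) := ⟨pow_ne_zero _ hp.ne_zero⟩
  obtain ⟨χ, hχ, hχx⟩ := h.exists_chi hp i₀ n
  obtain ⟨m, hm⟩ := hz (U ⊓ χ.ker) (hU.inter hχ)
  obtain ⟨u, hu1, hu2, hu3⟩ := exists_unit hp j n m l le_rfl (hj m hm.1)
  let S := Subgroup.zpowers u
  let u' : S := ⟨u, Subgroup.mem_zpowers u⟩
  have hS : IsPGroup p S := by
    rintro ⟨_, i, rfl⟩
    refine ⟨n, Subtype.ext ?_⟩
    change (u ^ i) ^ p ^ n = 1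
    rw [← zpow_natCast, ← zpow_mul, mul_comm, zpow_mul, zpow_natCast, hu1, one_zpow]
  obtain ⟨ρ, hρ, hρι⟩ := h.lift (Q := Aff (ZMod (p ^ (n + 2))) S)
    (Aff.isPGroup (k := n + 2) hS (ZMod.natCast_self _))
    (fun i => if i = i₀ then ⟨0, u'⟩ else if i = i₁ then ⟨1, 1⟩ else 1)
    ((Set.toFinite {i₀, i₁}).subset fun i hi => by
      by_contra hne
      simp only [Set.mem_insert_iff, Set.mem_singleton_iff, not_or] at hne
      exact hi (by simp only [if_neg hne.1, if_neg hne.2]))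
  have hx : ρ (ι i₀) = ⟨0, u'⟩ := by rw [hρι, if_pos rfl]
  have hy : ρ (ι i₁) = ⟨1, 1⟩ := by rw [hρι, if_neg hi.symm, if_pos rfl]
  have hzu : (ρ z).u = u' ^ m := by
    obtain ⟨m', hm'⟩ := hz (ρ.ker ⊓ χ.ker) (hρ.inter hχ)
    have e1 : ρ z = ρ (ι i₀) ^ m' := by
      have := MonoidHom.mem_ker.1 hm'.1
      rwa [map_mul, map_inv, inv_mul_eq_one, map_pow] at this
    have e2 : ∀ m : ℕ, z⁻¹ * ι i₀ ^ m ∈ χ.ker →
        Multiplicative.toAdd (χ z) = (m : ZMod (p ^ n)) := by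
      intro m hm
      have := MonoidHom.mem_ker.1 hm
      rw [map_mul, map_inv, inv_mul_eq_one, map_pow, hχx] at this
      rw [this]; simp
    have e3 : m' ≡ m [MOD p ^ n] :=
      (ZMod.natCast_eq_natCast_iff _ _ _).1 ((e2 m' hm'.2).symm.trans (e2 m hm.2))
    rw [e1, Aff.pow_u, hx, pow_eq_pow_iff_modEq]
    exact e3.of_dvd (orderOf_dvd_of_pow_eq_one (Subtype.ext hu1))
  have hNS : ∀ g, NS (ι i₀) (ι i₁) g → (ρ g).u = 1 := by
    rintro _ ⟨a, b, c, hc, rfl⟩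
    rw [map_mul, map_mul, map_commutatorElement, map_commutatorElement, Aff.mul_u, Aff.mul_u,
      Aff.comm_u, Aff.comm_u, Aff.u_eq_one_of_comm (y := ρ (ι i₁)) (by rw [hy]) (by rw [hy])
        (by rw [← map_mul, hc, map_mul]), one_mul, one_mul]
  rintro ⟨g, g', h1, h2, e⟩
  have e' := congrArg (fun w => (ρ w).a) e
  simp only [map_gS, map_mul, map_psi, map_commutatorElement] at e'
  rw [Aff.comm_eq_one (hNS g' h2) (by rw [hy]), mul_one, Aff.psi_a _ _ _ (hNS g h1),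
    Aff.gS_a _ _ (by rw [hy]), hzu, hx, hy] at e'
  apply hu3
  have e'' : (((u' ^ m : S) : (ZMod (p ^ (n + 2)))ˣ) : ZMod (p ^ (n + 2))) =
      (u : ZMod (p ^ (n + 2))) ^ m := by simp [u']
  rw [e'', hu2, zero_mul, mul_one] at e'
  exact e'

lemma IsFreeProP.pow_injective (h : IsFreeProP p ι) (hp : p.Prime) (i₀ : X) :
    Function.Injective fun k : ℕ => ι i₀ ^ k := by
  intro a b e
  obtain ⟨χ, -, hχ⟩ := h.exists_chi hp i₀ (a + b)
  have e1 := congrArg (fun g => Multiplicative.toAdd (χ g)) e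
  simp only [map_pow, hχ, toAdd_pow, toAdd_ofAdd, nsmul_eq_mul, mul_one] at e1
  have := Nat.lt_pow_self (n := a + b) hp.one_lt
  exact Nat.ModEq.eq_of_lt_of_lt ((ZMod.natCast_eq_natCast_iff _ _ _).1 e1) (by omega) (by omega)

/-- the set coded by `gS l` among the elements commuting with `x` -/
lemma IsFreeProP.RR_iff (h : IsFreeProP p ι) (hp : p.Prime) {i₀ i₁ : X} (hi : i₀ ≠ i₁) {z : F}
    (hz : z * ι i₀ = ι i₀ * z) (l : List ℕ) :
    RR (p ^ 2) (ι i₀) (ι i₁) (gS (p ^ 2) (ι i₀) (ι i₁) l) z ↔ ∃ ν ∈ l, z = ι i₀ ^ ν := by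
  constructor
  · intro hR
    by_contra hc
    exact h.RR_sound hp hi (h.inCl hp i₀ hz) l (fun ν hν e => hc ⟨ν, hν, e⟩) hR
  · rintro ⟨ν, hν, rfl⟩
    exact h.1.RR_complete hp (dvd_pow_self p two_ne_zero) _ _ hν

/-- a coded set containing all predecessors of `z` contains `x⁻¹` -/
lemma IsFreeProP.RR_inv (h : IsFreeProP p ι) (hp : p.Prime) (i₀ : X) {y z g : F} {e : ℕ}
    (hz : z * ι i₀ = ι i₀ * z) (hg : ∀ k : ℕ, RR e (ι i₀) y g (z * (ι i₀ ^ k)⁻¹)) :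
    RR e (ι i₀) y g (ι i₀)⁻¹ := by
  refine h.1.mem_of_forall (C := {w | RR e (ι i₀) y g w})
    ((h.1.isClosed_RR e _ y).preimage (f := fun w => (g, w)) (by fun_prop)) fun U _ hU => ?_
  obtain ⟨m, hm⟩ := h.inCl hp i₀ hz U hU
  refine ⟨_, hg (m + 1), ?_⟩
  have c : Commute z (ι i₀) := hz
  have : (ι i₀)⁻¹⁻¹ * (z * (ι i₀ ^ (m + 1))⁻¹) = (z⁻¹ * ι i₀ ^ m)⁻¹ := by
    rw [inv_inv, ← mul_assoc, ← hz, pow_succ, mul_inv_rev, mul_assoc, mul_inv_cancel_left,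
      mul_inv_rev, inv_inv, ((c.pow_right m).inv_right).eq]
  rw [this]
  exact inv_mem hm

end Pool.Agent.P.MP_c4850b_lc
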